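import Pool.Agent.SIRM.UTwo
import Pool.Agent.NC.Closure

/-!
# Terms on the word, bits of the certificate, logarithms, and the class NP
-/

set_option autoImplicit false

namespace Pool.Agent.SIRM

open Turing Computability Pool.Agent.PT Pool.Agent.Book19

variable {Γ : Type}

/-- Letters of the first component. -/
private theorem Base_get_inl (x : List Γ) (w : List Bool) (a : Γ) (k : ℕ) :
    (pw x w)[k]? = some (Sum.inl a) ↔ x[k]? = some a := by
  unfold pw
  by_cases hk : k < x.length
  · rw [List.getElem?_append_left (by simpa using hk), List.getElem?_map]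
    cases x[k]? <;> simp
  · rw [List.getElem?_append_right (by simpa using hk), List.getElem?_map,
      List.getElem?_eq_none (by omega : x.length ≤ k)]
    cases w[k - (x.map (Sum.inl : Γ → Γ ⊕ Bool)).length]? <;> simp

private theorem Base_get_inr (x : List Γ) (w : List Bool) (b : Bool) (k : ℕ) :
    (pw x w)[x.length + k]? = some (Sum.inr b) ↔ w[k]? = some b := by
  unfold pw
  rw [List.getElem?_append_right (by simp), List.getElem?_map, List.length_map,
    Nat.add_sub_cancel_left]
  cases w[k]? <;> simp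

/-- Terms on the first component of a pair of words. -/
private theorem Base_trans [Fintype Γ] : ∀ t : Tm Γ, ∃ t' : Tm (Γ ⊕ Bool),
    ∀ (x : List Γ) (w : List Bool) (e : ℕ → ℕ), t'.eval (pw x w) e = t.eval x e
  | .var i => ⟨.var i, fun _ _ _ => rfl⟩
  | .const c => ⟨.const c, fun _ _ _ => rfl⟩
  | .len => by
    obtain ⟨t, ht⟩ := UF.countP (Γ := Γ ⊕ Bool) (fun a => a.isLeft)
    refine ⟨t, fun x w e => ?_⟩
    rw [ht]
    change List.countP (fun a => a.isLeft) (x.map Sum.inl ++ w.map Sum.inr : List (Γ ⊕ Bool)) =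
      x.length
    rw [List.countP_append]
    have h1 : (x.map (Sum.inl : Γ → Γ ⊕ Bool)).countP (fun a => a.isLeft) = x.length := by
      rw [List.countP_map, List.countP_eq_length]
      intro a _
      rfl
    have h2 : (w.map (Sum.inr : Bool → Γ ⊕ Bool)).countP (fun a => a.isLeft) = 0 := by
      rw [List.countP_map, List.countP_eq_zero]
      intro a _
      simp
    rw [h1, h2]
    rfl
  | .sym a t => by
    obtain ⟨t', ht'⟩ := Base_trans t
    refine ⟨.sym (Sum.inl a) t', fun x w e => ?_⟩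
    have h1 := Base_get_inl x w a (t.eval x e)
    have h2 := ht' x w e
    simp only [Tm.eval]
    by_cases h : x[t.eval x e]? = some a
    · rw [if_pos h, if_pos]
      rw [h2]
      exact h1.2 h
    · rw [if_neg h, if_neg]
      rw [h2]
      exact fun h' => h (h1.1 h')
  | .add s t => by
    obtain ⟨s', hs'⟩ := Base_trans s
    obtain ⟨t', ht'⟩ := Base_trans t
    exact ⟨.add s' t', fun x w e => by simp only [Tm.eval, hs', ht']⟩
  | .sub s t => by
    obtain ⟨s', hs'⟩ := Base_trans s
    obtain ⟨t', ht'⟩ := Base_trans t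
    exact ⟨.sub s' t', fun x w e => by simp only [Tm.eval, hs', ht']⟩
  | .sum s t => by
    obtain ⟨s', hs'⟩ := Base_trans s
    obtain ⟨t', ht'⟩ := Base_trans t
    exact ⟨.sum s' t', fun x w e => by simp only [Tm.eval, hs', ht']⟩
  | .lett s t => by
    obtain ⟨s', hs'⟩ := Base_trans s
    obtain ⟨t', ht'⟩ := Base_trans t
    exact ⟨.lett s' t', fun x w e => by simp only [Tm.eval, hs', ht']⟩
  | .ren σ t => by
    obtain ⟨t', ht'⟩ := Base_trans t
    exact ⟨.ren σ t', fun x w e => by simp only [Tm.eval, ht']⟩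

theorem UF2.ofUF [Fintype Γ] {f : List Γ → (ℕ → ℕ) → ℕ} (hf : UF f) :
    UF2 (fun x _ e => f x e) := by
  obtain ⟨t, ht⟩ := hf
  obtain ⟨t', ht'⟩ := Base_trans t
  exact ⟨fun z e => t'.eval z e, ⟨t', fun _ _ => rfl⟩, fun x w e => (ht' x w e).trans (ht x e)⟩

theorem UP2.ofUP [Fintype Γ] {P : List Γ → (ℕ → ℕ) → Prop} (hP : UP P) :
    UP2 (fun x _ e => P x e) := by
  classical
  obtain ⟨F, hF, h1⟩ := UF2.ofUF hP
  refine ⟨fun z e => F z e ≠ 0, UP.of_ne_zero hF fun _ _ => Iff.rfl, fun x w e => ?_⟩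
  simp only [h1]
  by_cases h : P x e <;> simp [h]

theorem UF2.len [Fintype Γ] : UF2 (Γ := Γ) (fun x _ _ => x.length) := UF2.ofUF UF.len

/-- bits of the certificate -/
theorem UP2.bit [Fintype Γ] {f : List Γ → List Bool → (ℕ → ℕ) → ℕ} (hf : UF2 f) :
    UP2 (fun x w e => w[f x w e]? = some true) := by
  obtain ⟨F, hF, h1⟩ := UF2.add UF2.len hf
  refine ⟨fun z e => z[F z e]? = some (Sum.inr true), UP.sym (Sum.inr true) hF, fun x w e => ?_⟩
  simp only [h1]
  exact Base_get_inr x w true _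

theorem UF.log {f : List Γ → (ℕ → ℕ) → ℕ} (hf : UF f) : UF fun x e => Nat.log 2 (f x e) := by
  classical
  have h1 : UP (Γ := Γ) fun x e => 2 ≤ e 0 ∧
      ∀ d, d < e 0 + 1 → e 0 % d = 0 → d = 1 ∨ d % 2 = 0 :=
    (UP.le (UF.const 2) (UF.var 0)).and
      (UP.ball (P := fun x e d => e 0 % d = 0 → d = 1 ∨ d % 2 = 0)
        ((UF.var 0).add (UF.const 1))
        ((UP.eq ((UF.var 1).mod (UF.var 0)) (UF.const 0)).imp
          ((UP.eq (UF.var 0) (UF.const 1)).or
            (UP.eq ((UF.var 0).mod (UF.const 2)) (UF.const 0)))))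
  refine (UF.sum (b := fun x e => f x e + 1) (f := fun x e p =>
    if 2 ≤ p ∧ ∀ d, d < p + 1 → p % d = 0 → d = 1 ∨ d % 2 = 0 then 1 else 0)
    (UF.add hf (UF.const 1)) (UF.congr h1 fun x e => by congr)).congr fun x e => ?_
  simp only [Finset.sum_boole, Pool.Agent.NC.log_eq_card, Nat.cast_id]

theorem UF2.log {f : List Γ → List Bool → (ℕ → ℕ) → ℕ} (hf : UF2 f) :
    UF2 fun x w e => Nat.log 2 (f x w e) := by
  obtain ⟨F, hF, h1⟩ := hf
  exact ⟨_, UF.log hF, fun x w e => by rw [h1]⟩

/-- **NP from verifiers denoted by terms.** -/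
theorem inNP_of_UP2 [Fintype Γ] (L : Set (List Γ)) (P : Polynomial ℕ)
    (V : List Γ → List Bool → Prop) (hV : UP2 fun x w _ => V x w)
    (h : ∀ x, x ∈ L ↔ ∃ w : List Bool, w.length ≤ P.eval x.length ∧ V x w) : InNP L := by
  classical
  obtain ⟨Q, hQ, h1⟩ := hV
  refine ⟨P, fun p => decide (V p.1 p.2), ?_, fun x => ?_⟩
  · refine polyTime_bool (P := fun z => Q z (fun _ => 0)) _
      (UF.subst hQ (fun _ _ _ => 0) (fun _ => UF.const 0)) _ fun p => ?_
    rw [decide_eq_true_iff]
    exact (h1 p.1 p.2 _).symm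
  · rw [h x]
    exact exists_congr fun w => and_congr_right fun _ => by simp

end Pool.Agent.SIRM
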