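import Mathlib

/-!
# A bound for powers
-/

set_option autoImplicit false

namespace Pool.Agent.SIRM

/-- With `a = log s`, `b = log d`, `L = log N`: `s < 2 ^ (a + 1)`, so the left side is at most
`2 ^ (k * (a + 1) * (b + 1))`, and `(a + 1) * (b + 1) = a * b + a + b + 1 ≤ (c + 2) * L + 1`, and `2 ^ L ≤ N`. -/
theorem pow_bound (k c s d N : ℕ) (hs : s ≤ N) (hd : d ≤ N) (hN : 0 < N)
    (h : Nat.log 2 s * Nat.log 2 d ≤ c * Nat.log 2 N) :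
    s ^ (k * (Nat.log 2 d + 1)) ≤ 2 ^ k * (N + 1) ^ (k * (c + 2)) := by
  have h1 : s ≤ 2 ^ (Nat.log 2 s + 1) := (Nat.lt_pow_succ_log_self one_lt_two s).le
  have h2 : Nat.log 2 s ≤ Nat.log 2 N := Nat.log_mono_right hs
  have h3 : Nat.log 2 d ≤ Nat.log 2 N := Nat.log_mono_right hd
  have h4 : 2 ^ Nat.log 2 N ≤ N + 1 := (Nat.pow_log_le_self 2 hN.ne').trans (Nat.le_succ N)
  have h5 : (Nat.log 2 s + 1) * (k * (Nat.log 2 d + 1)) ≤
      k + Nat.log 2 N * (k * (c + 2)) := by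
    have h6 : (Nat.log 2 s + 1) * (Nat.log 2 d + 1) ≤ 1 + Nat.log 2 N * (c + 2) := by
      nlinarith [h, h2, h3]
    calc (Nat.log 2 s + 1) * (k * (Nat.log 2 d + 1))
        = k * ((Nat.log 2 s + 1) * (Nat.log 2 d + 1)) := by ring
      _ ≤ k * (1 + Nat.log 2 N * (c + 2)) := Nat.mul_le_mul_left k h6
      _ = _ := by ring
  calc s ^ (k * (Nat.log 2 d + 1))
      ≤ (2 ^ (Nat.log 2 s + 1)) ^ (k * (Nat.log 2 d + 1)) := Nat.pow_le_pow_left h1 _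
    _ = 2 ^ ((Nat.log 2 s + 1) * (k * (Nat.log 2 d + 1))) := (pow_mul _ _ _).symm
    _ ≤ 2 ^ (k + Nat.log 2 N * (k * (c + 2))) := Nat.pow_le_pow_right two_pos h5
    _ = 2 ^ k * (2 ^ Nat.log 2 N) ^ (k * (c + 2)) := by rw [pow_add, pow_mul]
    _ ≤ 2 ^ k * (N + 1) ^ (k * (c + 2)) :=
        Nat.mul_le_mul_left _ (Nat.pow_le_pow_left h4 _)

end Pool.Agent.SIRM
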