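import Pool.Agent.SIRM.Fam

/-!
# Families of terms: existence and total degree
-/

set_option autoImplicit false

namespace Pool.Agent.SIRM

open MvPolynomial

variable {F : Type} [Field F]

private theorem sum_getD {α M : Type*} [AddCommMonoid M] (d : α) (f : α → M) (l : List α) :
    ∑ u ∈ Finset.range l.length, f (l.getD u d) = (l.map f).sum := by
  induction l with
  | nil => simp
  | cons a l ih =>
    rw [List.length_cons, Finset.sum_range_succ', List.map_cons, List.sum_cons, ← ih, add_comm]
    rfl

private theorem sum_ex {n : ℕ} (m : Fin n →₀ ℕ) :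
    (m.sum fun _ e => e) = ∑ i : Fin n, m i :=
  Finsupp.sum_fintype _ _ fun _ => rfl

/-- Enumerate the support (`Finset.equivFin` or `g.support.toList`), zero terms for the remaining
indices, and exponents zero at the indices `i ≥ n`. -/
theorem exists_fam (n S : ℕ) (g : MvPolynomial (Fin n) F) (h : g.support.card ≤ S) :
    ∃ (ex : ℕ → ℕ → ℕ) (co : ℕ → F), g = fam n S ex co ∧
      ∀ u, (∀ i, ex u i ≤ g.totalDegree) ∧ ∑ i ∈ Finset.range n, ex u i ≤ g.totalDegree := by
  classical
  have hlen : g.support.toList.length = g.support.card := Finset.length_toList _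
  set l := g.support.toList with hl
  set m : ℕ → (Fin n →₀ ℕ) := fun u => l.getD u 0 with hm
  set co : ℕ → F := fun u => if u < l.length then coeff (m u) g else 0 with hco
  have hex : ∀ u, (Finsupp.equivFunOnFinite.symm fun i : Fin n =>
      if hi : (i : ℕ) < n then m u ⟨i, hi⟩ else 0) = m u := by
    intro u
    ext i
    simp
  have hle : ∀ u, ∑ i : Fin n, m u i ≤ g.totalDegree := by
    intro u
    by_cases hu : u < l.length
    · have h1 : m u ∈ g.support := by
        have h2 : m u = l[u] := by
          rw [hm]
          exact List.getD_eq_getElem _ _ hu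
        rw [h2, ← Finset.mem_toList]
        exact List.getElem_mem hu
      rw [← sum_ex]
      exact le_totalDegree h1
    · have h2 : m u = 0 := by
        rw [hm]
        exact List.getD_eq_default _ _ (not_lt.1 hu)
      rw [h2]
      simp
  refine ⟨fun u i => if hi : i < n then m u ⟨i, hi⟩ else 0, co, ?_, fun u => ⟨fun i => ?_, ?_⟩⟩
  · rw [fam]
    simp only [hex]
    have h1 : ∑ u ∈ Finset.range S, monomial (m u) (co u) =
        ∑ u ∈ Finset.range l.length, monomial (m u) (co u) := by
      symm
      apply Finset.sum_subset
      · intro u hu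
        rw [Finset.mem_range] at hu ⊢
        omega
      · intro u _ hu
        rw [Finset.mem_range] at hu
        rw [hco]
        simp only [if_neg hu, monomial_zero]
    rw [h1]
    have h2 : ∑ u ∈ Finset.range l.length, monomial (m u) (co u) =
        ∑ u ∈ Finset.range l.length, (fun v => monomial v (coeff v g)) (l.getD u 0) := by
      apply Finset.sum_congr rfl
      intro u hu
      rw [Finset.mem_range] at hu
      rw [hco]
      simp only [if_pos hu, hm]
    rw [h2]
    refine Eq.trans ?_ (sum_getD (0 : Fin n →₀ ℕ) (fun v => monomial v (coeff v g)) l).symm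
    rw [hl, Finset.sum_map_toList]
    exact (support_sum_monomial_coeff g).symm
  · by_cases hi : i < n
    · simp only [dif_pos hi]
      exact (Finset.single_le_sum (f := fun i : Fin n => m u i) (fun _ _ => Nat.zero_le _)
        (Finset.mem_univ (⟨i, hi⟩ : Fin n))).trans (hle u)
    · simp only [dif_neg hi]
      exact Nat.zero_le _
  · have h1 : ∑ i ∈ Finset.range n, (if hi : i < n then m u ⟨i, hi⟩ else 0) =
        ∑ i : Fin n, m u i := by
      rw [← Fin.sum_univ_eq_sum_range (fun i => if hi : i < n then m u ⟨i, hi⟩ else 0) n]
      apply Finset.sum_congr rfl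
      intro i _
      simp
    rw [h1]
    exact hle u

/-- `totalDegree_finset_sum`, `totalDegree_monomial_le`. -/
theorem fam_totalDegree_le (n N D : ℕ) (ex : ℕ → ℕ → ℕ) (co : ℕ → F)
    (h : ∀ u, u < N → ∑ i ∈ Finset.range n, ex u i ≤ D) : (fam n N ex co).totalDegree ≤ D := by
  rw [fam]
  apply totalDegree_finsetSum_le
  intro u hu
  rw [Finset.mem_range] at hu
  refine (totalDegree_monomial_le _ _).trans (le_trans (le_of_eq ?_) (h u hu))
  refine (sum_ex _).trans ?_
  rw [← Fin.sum_univ_eq_sum_range (fun i => ex u i) n]
  rfl

end Pool.Agent.SIRM
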