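import Pool.Agent.SIRM.Fam

/-!
# Families of terms: support and degrees
-/

set_option autoImplicit false

namespace Pool.Agent.SIRM

open MvPolynomial

variable {F : Type} [Field F]

private theorem inj_FamS (n N : ℕ) (ex : ℕ → ℕ → ℕ)
    (h : ∀ u, u < N → ∀ v, v < N → u ≠ v → ∃ i, i < n ∧ ex u i ≠ ex v i) {u v : ℕ}
    (hu : u < N) (hv : v < N)
    (huv : (Finsupp.equivFunOnFinite.symm fun i : Fin n => ex u i) =
      Finsupp.equivFunOnFinite.symm fun i : Fin n => ex v i) : u = v := by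
  by_contra hne
  obtain ⟨i, hi, hne'⟩ := h u hu v hv hne
  apply hne'
  have h1 := congrArg (fun m : Fin n →₀ ℕ => m ⟨i, hi⟩) huv
  exact h1

open Classical in
private theorem coeff_FamS (n N : ℕ) (ex : ℕ → ℕ → ℕ) (co : ℕ → F) (m : Fin n →₀ ℕ) :
    coeff m (fam n N ex co) = ∑ v ∈ Finset.range N,
      if (Finsupp.equivFunOnFinite.symm fun i : Fin n => ex v i) = m then co v else 0 := by
  unfold fam
  rw [coeff_sum]
  refine Finset.sum_congr rfl fun v _ => ?_
  rw [coeff_monomial]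

private theorem mem_FamS (n N : ℕ) (ex : ℕ → ℕ → ℕ) (co : ℕ → F)
    (h : ∀ u, u < N → ∀ v, v < N → u ≠ v → ∃ i, i < n ∧ ex u i ≠ ex v i)
    (h' : ∀ u, u < N → co u ≠ 0) (m : Fin n →₀ ℕ) : m ∈ (fam n N ex co).support ↔
      ∃ u, u < N ∧ (Finsupp.equivFunOnFinite.symm fun i : Fin n => ex u i) = m := by
  classical
  rw [mem_support_iff, coeff_FamS]
  constructor
  · intro h1
    obtain ⟨u, hu, hu'⟩ := Finset.exists_ne_zero_of_sum_ne_zero h1
    refine ⟨u, Finset.mem_range.1 hu, ?_⟩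
    by_contra h2
    exact hu' (if_neg h2)
  · rintro ⟨u, hu, rfl⟩
    rw [Finset.sum_eq_single_of_mem u (Finset.mem_range.2 hu), if_pos rfl]
    · exact h' u hu
    · intro v hv hne
      rw [if_neg]
      intro h3
      exact hne (inj_FamS n N ex h (Finset.mem_range.1 hv) hu h3)

/-- A family with pairwise different exponents and nonzero coefficients. -/
theorem support_fam (n N : ℕ) (ex : ℕ → ℕ → ℕ) (co : ℕ → F)
    (h : ∀ u, u < N → ∀ v, v < N → u ≠ v → ∃ i, i < n ∧ ex u i ≠ ex v i)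
    (h' : ∀ u, u < N → co u ≠ 0) : (fam n N ex co).support.card = N ∧
    (∀ u, u < N → (Finsupp.equivFunOnFinite.symm fun i : Fin n => ex u i) ∈ (fam n N ex co).support) ∧
    ∀ m ∈ (fam n N ex co).support, ∃ u, u < N ∧ ∀ i : Fin n, m i = ex u i := by
  classical
  have h1 := mem_FamS n N ex co h h'
  refine ⟨?_, fun u hu => (h1 _).2 ⟨u, hu, rfl⟩, fun m hm => ?_⟩
  · have h2 : (fam n N ex co).support = (Finset.range N).image
        fun u => Finsupp.equivFunOnFinite.symm fun i : Fin n => ex u i := by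
      ext m
      rw [h1, Finset.mem_image]
      simp only [Finset.mem_range]
    rw [h2, Finset.card_image_of_injOn, Finset.card_range]
    intro u hu v hv huv
    exact inj_FamS n N ex h (Finset.mem_range.1 hu) (Finset.mem_range.1 hv) huv
  · obtain ⟨u, hu, rfl⟩ := (h1 m).1 hm
    exact ⟨u, hu, fun i => rfl⟩

/-- From `support_fam`: degree in a variable, total degree. -/
theorem degree_fam (n N : ℕ) (ex : ℕ → ℕ → ℕ) (co : ℕ → F)
    (h : ∀ u, u < N → ∀ v, v < N → u ≠ v → ∃ i, i < n ∧ ex u i ≠ ex v i)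
    (h' : ∀ u, u < N → co u ≠ 0) :
    (∀ d, (∀ i, (fam n N ex co).degreeOf i ≤ d) ↔ ∀ u, u < N → ∀ i, i < n → ex u i ≤ d) ∧
    (∀ D, 0 < N → (D ≤ (fam n N ex co).totalDegree ↔
      ∃ u, u < N ∧ D ≤ ∑ i ∈ Finset.range n, ex u i)) := by
  have h1 := mem_FamS n N ex co h h'
  constructor
  · intro d
    constructor
    · intro h2 u hu i hi
      exact degreeOf_le_iff.1 (h2 ⟨i, hi⟩) _ ((h1 _).2 ⟨u, hu, rfl⟩)
    · intro h2 i
      rw [degreeOf_le_iff]
      intro m hm
      obtain ⟨u, hu, rfl⟩ := (h1 m).1 hm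
      exact h2 u hu i i.2
  · intro D hN
    have h3 : ∀ u, (Finsupp.equivFunOnFinite.symm fun i : Fin n => ex u i).sum (fun _ e => e) =
        ∑ i ∈ Finset.range n, ex u i := by
      intro u
      rw [Finsupp.sum_fintype _ _ (fun _ => rfl), Finset.sum_range]
      rfl
    constructor
    · intro h2
      have hne : (fam n N ex co).support.Nonempty := ⟨_, (h1 _).2 ⟨0, hN, rfl⟩⟩
      obtain ⟨m, hm, hm'⟩ := Finset.exists_mem_eq_sup _ hne fun s : Fin n →₀ ℕ =>
        s.sum fun _ e => e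
      obtain ⟨u, hu, rfl⟩ := (h1 m).1 hm
      refine ⟨u, hu, ?_⟩
      rw [← h3, ← hm']
      exact h2
    · rintro ⟨u, hu, hD⟩
      rw [← h3] at hD
      exact hD.trans (le_totalDegree ((h1 _).2 ⟨u, hu, rfl⟩))

end Pool.Agent.SIRM
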