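import Pool.Agent.SIRM.ParCode

/-! # The values of the reading functions on codes -/

set_option autoImplicit false

namespace Pool.Agent.SIRM

variable {F : Type}

private theorem blk_cons_parval (a : ℕ) (l : List ℕ) :
    (blk (a :: l) : List (Option (F ⊕ Bool))) =
      List.replicate a (some (Sum.inr true)) ++ (some (Sum.inr false) :: blk l) := by
  unfold blk
  rw [List.map_cons, List.flatten_cons, List.append_assoc, List.singleton_append]

private theorem ones_inl_parval (b : F) (x : List (Option (F ⊕ Bool))) (k : ℕ) :
    ones (some (Sum.inl b) :: x) k = ones x k := by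
  cases k <;> simp only [ones]

private theorem ones_zero_parval (a : ℕ) (x : List (Option (F ⊕ Bool))) :
    ones (List.replicate a (some (Sum.inr true)) ++ (some (Sum.inr false) :: x)) 0 = a := by
  induction a with
  | zero => rfl
  | succ a ih =>
    rw [List.replicate_succ, List.cons_append]
    show ones _ 0 + 1 = a + 1
    rw [ih]

private theorem ones_succ_parval (a k : ℕ) (x : List (Option (F ⊕ Bool))) :
    ones (List.replicate a (some (Sum.inr true)) ++ (some (Sum.inr false) :: x)) (k + 1) =
      ones x k := by
  induction a with
  | zero => rfl
  | succ a ih =>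
    rw [List.replicate_succ, List.cons_append]
    show ones _ (k + 1) = ones x k
    exact ih

/-- Induction on `l` and on the first block. -/
theorem ones_blk (l : List ℕ) (y : List (Option (F ⊕ Bool))) (k : ℕ) :
    ones (blk l ++ y) k = if h : k < l.length then l[k]
      else ones y (k - l.length) := by
  induction l generalizing k with
  | nil =>
    rw [dif_neg (show ¬ k < ([] : List ℕ).length from Nat.not_lt_zero k)]
    rfl
  | cons a l ih =>
    rw [blk_cons_parval, List.append_assoc, List.cons_append]
    cases k with
    | zero =>
      rw [ones_zero_parval, dif_pos (show 0 < (a :: l).length from Nat.succ_pos _)]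
      rfl
    | succ k =>
      rw [ones_succ_parval, ih]
      by_cases h : k < l.length
      · rw [dif_pos h, dif_pos (show k + 1 < (a :: l).length from Nat.succ_lt_succ h)]
        rfl
      · rw [dif_neg h, dif_neg (show ¬ k + 1 < (a :: l).length from
          fun h' => h (Nat.lt_of_succ_lt_succ h'))]
        congr 1
        rw [List.length_cons]
        omega

/-- the exponents of a code -/
theorem ones_cw {n : ℕ} (ts : List ((Fin n → ℕ) × F)) (m j : ℕ) (hj : j < ts.length) (i : Fin n) :
    ones (cw ts m) (j * n + i) = ts[j].1 i := by
  induction ts generalizing j with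
  | nil => exact absurd hj (Nat.not_lt_zero j)
  | cons t ts ih =>
    rw [cw_cons, ones_inl_parval, ones_blk]
    cases j with
    | zero =>
      have h1 : 0 * n + i.1 < (List.ofFn t.1).length := by
        rw [List.length_ofFn]
        have := i.2
        omega
      rw [dif_pos h1]
      rw [List.getElem_ofFn]
      exact congrArg t.1 (Fin.ext (by
        show 0 * n + i.1 = i.1
        omega))
    | succ j =>
      have h1 : ¬ (j + 1) * n + i.1 < (List.ofFn t.1).length := by
        rw [List.length_ofFn, Nat.succ_mul]
        omega
      rw [dif_neg h1]
      have h2 : (j + 1) * n + i.1 - (List.ofFn t.1).length = j * n + i.1 := by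
        rw [List.length_ofFn, Nat.succ_mul]
        omega
      rw [h2]
      exact ih j (Nat.lt_of_succ_lt_succ hj)

theorem coefs_cw {n : ℕ} (ts : List ((Fin n → ℕ) × F)) (m : ℕ) :
    coefs (cw ts m) = ts.map Prod.snd := by
  induction ts with
  | nil =>
    rw [cw_nil]
    unfold coefs
    induction m with
    | zero => rfl
    | succ m ih =>
      rw [List.replicate_succ, List.filterMap_cons]
      exact ih
  | cons t ts ih =>
    rw [cw_cons]
    have h1 : ∀ (l : List ℕ) (y : List (Option (F ⊕ Bool))), coefs (blk l ++ y) = coefs y := by
      intro l y
      have h4 : coefs (blk l ++ y) = coefs (blk l) ++ coefs y := List.filterMap_append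
      have h2 : coefs (blk l : List (Option (F ⊕ Bool))) = [] := by
        unfold coefs
        rw [List.filterMap_eq_nil_iff]
        intro a ha
        unfold blk at ha
        rw [List.mem_flatten] at ha
        obtain ⟨u, hu, ha⟩ := ha
        rw [List.mem_map] at hu
        obtain ⟨k, _, rfl⟩ := hu
        rw [List.mem_append, List.mem_replicate, List.mem_singleton] at ha
        rcases ha with ⟨_, rfl⟩ | rfl <;> rfl
      rw [h4, h2, List.nil_append]
    have h3 : coefs (some (Sum.inl t.2) :: (blk (List.ofFn t.1) ++ cw ts m)) =
        t.2 :: coefs (blk (List.ofFn t.1) ++ cw ts m) := rfl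
    rw [h3, h1, ih]
    rfl

theorem countP_cw {n : ℕ} (ts : List ((Fin n → ℕ) × F)) (m : ℕ) :
    (cw ts m).countP isSep = ts.length * n := by
  have h0 : ∀ l : List ℕ, (blk l : List (Option (F ⊕ Bool))).countP isSep = l.length := by
    intro l
    induction l with
    | nil => rfl
    | cons a l ih =>
      rw [blk_cons_parval, List.countP_append, List.countP_cons_of_pos rfl, ih]
      have h1 : (List.replicate a (some (Sum.inr true)) : List (Option (F ⊕ Bool))).countP
          isSep = 0 := by
        rw [List.countP_eq_zero]
        intro x hx
        rw [List.eq_of_mem_replicate hx]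
        exact Bool.false_ne_true
      rw [h1, List.length_cons]
      omega
  induction ts with
  | nil =>
    rw [cw_nil, List.length_nil, Nat.zero_mul, List.countP_eq_zero]
    intro x hx
    rw [List.eq_of_mem_replicate hx]
    exact Bool.false_ne_true
  | cons t ts ih =>
    rw [cw_cons, List.countP_cons_of_neg Bool.false_ne_true, List.countP_append, h0, ih,
      List.length_ofFn, List.length_cons, Nat.succ_mul]
    omega

end Pool.Agent.SIRM
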