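import Pool.Agent.SIRM.ReadDefs
import Pool.Agent.SIRM.ParVal

/-!
# The polynomial read from a word and codes
-/

set_option autoImplicit false

namespace Pool.Agent.SIRM

open MvPolynomial

variable {F : Type} [Field F]

private theorem vals {n : ℕ} {x : List (Option (F ⊕ Bool))} {ts : List ((Fin n → ℕ) × F)} {m : ℕ}
    (hx : x = cw ts m) : tT x = ts.length ∧
      (∀ (j : ℕ) (hj : j < ts.length), cc x j = ts[j].2) ∧
      (∀ (j : ℕ) (hj : j < ts.length) (i : Fin n), ones x (j * n + i) = ts[j].1 i) ∧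
      x.countP isSep = ts.length * n := by
  subst hx
  have h1 := coefs_cw ts m
  refine ⟨by rw [tT, h1, List.length_map], fun j hj => ?_, fun j hj i => ones_cw ts m j hj i,
    countP_cw ts m⟩
  rw [cc, h1, List.getD_eq_getElem _ _ (by rwa [List.length_map]), List.getElem_map]

private theorem fam_sum {n : ℕ} (ts : List ((Fin n → ℕ) × F)) (N : ℕ) (hN : N = ts.length)
    (ex : ℕ → ℕ → ℕ) (co : ℕ → F)
    (h1 : ∀ (j : ℕ) (hj : j < ts.length) (i : Fin n), ex j i = ts[j].1 i)
    (h2 : ∀ (j : ℕ) (hj : j < ts.length), co j = ts[j].2) :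
    fam n N ex co =
      (ts.map fun t => monomial (Finsupp.equivFunOnFinite.symm t.1) t.2).sum := by
  subst hN
  rw [fam, Finset.sum_range, ← Fin.sum_univ_fun_getElem]
  refine Finset.sum_congr rfl fun j _ => ?_
  have h3 : (fun i : Fin n => ex j i) = ts[(j : ℕ)].1 := funext fun i => h1 j j.2 i
  rw [h2 j j.2, h3]

omit [Field F] in
private theorem code_of_chk (x : List (Option (F ⊕ Bool))) (h : chk (nn x) 0 x) :
    ∃ (ts : List ((Fin (nn x) → ℕ) × F)) (m : ℕ), x = cw ts m := by
  obtain ⟨l, ts, m, hl, hx⟩ := exists_of_chk (nn x) x 0 h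
  have h1 : blk l ++ cw ts m = cw ts m := by
    rw [List.length_eq_zero_iff.1 hl]
    rfl
  exact ⟨ts, m, hx.trans h1⟩

/-- `exists_of_chk` gives `x = cw ts m`; then `coefs_cw`, `countP_cw`, `ones_cw` compute `tT x`,
`nn x`, `ee x`, `cc x`; the exponent vectors are pairwise different, the coefficients nonzero, and
the sum over the list is the sum over `range` (`List.sum_ofFn`, `Finset.sum_range`,
`List.sum_map...`). -/
theorem good_code (x : List (Option (F ⊕ Bool))) (h : Good x) : IsCode x (pol x) := by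
  obtain ⟨h1, h2, h3, h4, h5⟩ := h
  obtain ⟨ts, m, hx⟩ := code_of_chk x h3
  obtain ⟨v1, v2, v3, v4⟩ := vals hx
  refine ⟨ts, m, ⟨?_, fun t ht => ?_, ?_⟩, hx⟩
  · rw [List.nodup_iff_injective_get]
    intro u v huv
    by_contra hne
    have hu : (u : ℕ) < ts.length := by simpa using u.2
    have hv : (v : ℕ) < ts.length := by simpa using v.2
    obtain ⟨i, hi, hi2⟩ := h4 u (by rw [v1]; exact hu) v (by rw [v1]; exact hv)
      (fun h => hne (Fin.ext h))
    apply hi2
    have e1 := v3 u hu ⟨i, hi⟩
    have e2 := v3 v hv ⟨i, hi⟩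
    have e3 : ts[(u : ℕ)].1 = ts[(v : ℕ)].1 := by simpa using huv
    rw [ee, ee]
    exact (e1.trans (congrFun e3 _)).trans e2.symm
  · obtain ⟨j, hj, rfl⟩ := List.getElem_of_mem ht
    rw [← v2 j hj]
    exact h5 j (by rw [v1]; exact hj)
  · exact fam_sum ts (tT x) v1 (ee x) (cc x) (fun j hj i => v3 j hj i) v2

/-- The same computation, starting from a code. `ts` is not empty as `f ≠ 0`. -/
theorem of_code (x : List (Option (F ⊕ Bool))) (n : ℕ) (hn : 0 < n) (f : MvPolynomial (Fin n) F)
    (hf : f ≠ 0) (h : IsCode x f) : Good x ∧ nn x = n ∧ f = fam n (tT x) (ee x) (cc x) := by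
  obtain ⟨ts, m, hr, hx⟩ := h
  have hx' : x = cw ts m := hx
  obtain ⟨v1, v2, v3, v4⟩ := vals hx'
  have hts : 0 < ts.length := by
    rcases Nat.eq_zero_or_pos ts.length with h0 | h0
    · exfalso
      rw [List.length_eq_zero_iff] at h0
      apply hf
      rw [hr.sum, h0]
      rfl
    · exact h0
  have hnn : nn x = n := by rw [nn, v4, v1, Nat.mul_div_cancel_left _ hts]
  have hee : ∀ (j : ℕ) (hj : j < ts.length) (i : Fin n), ee x j i = ts[j].1 i := by
    intro j hj i
    rw [ee, hnn]
    exact v3 j hj i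
  refine ⟨⟨by rw [v1]; exact hts, by rw [hnn]; exact hn, ?_, ?_, ?_⟩, hnn, ?_⟩
  · rw [hnn]
    have h1 := chk_of_code n [] ts m
    have h2 : blk [] ++ cw ts m = x := by
      rw [hx']
      rfl
    rw [h2] at h1
    exact h1
  · intro u hu v hv huv
    rw [v1] at hu hv
    by_contra hcon
    push Not at hcon
    have h1 : ts[u].1 = ts[v].1 := by
      funext i
      rw [← hee u hu i, ← hee v hv i]
      exact hcon i (by rw [hnn]; exact i.2)
    have h2 := List.nodup_iff_injective_get.1 hr.nodup
    have h3 : (⟨u, by simpa using hu⟩ : Fin (ts.map Prod.fst).length) =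
        ⟨v, by simpa using hv⟩ := by
      apply h2
      simpa using h1
    exact huv (congrArg Fin.val h3)
  · intro u hu
    rw [v1] at hu
    rw [v2 u hu]
    exact hr.ne _ (List.getElem_mem hu)
  · rw [hr.sum]
    exact (fam_sum ts (tT x) v1 (ee x) (cc x) hee v2).symm

omit [Field F] in
private theorem sum_le_blk (l : List ℕ) :
    l.sum ≤ (blk l : List (Option (F ⊕ Bool))).length := by
  induction l with
  | nil => simp
  | cons a l ih =>
    have h1 : (blk (a :: l) : List (Option (F ⊕ Bool))) =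
        (List.replicate a (some (Sum.inr true)) ++ [some (Sum.inr false)]) ++ blk l := rfl
    rw [h1, List.sum_cons, List.length_append, List.length_append, List.length_replicate]
    omega

omit [Field F] in
private theorem sum_le_cw {n : ℕ} (ts : List ((Fin n → ℕ) × F)) (m : ℕ) :
    ∀ t ∈ ts, ∑ i, t.1 i ≤ (cw ts m).length := by
  induction ts with
  | nil => intro t ht; simp at ht
  | cons s ts ih =>
    intro t ht
    rw [cw_cons, List.length_cons, List.length_append]
    rcases List.mem_cons.1 ht with rfl | ht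
    · have h1 := sum_le_blk (F := F) (List.ofFn t.1)
      rw [List.sum_ofFn] at h1
      omega
    · have h1 := ih t ht
      omega

/-- From `exists_of_chk`, `coefs_cw`, `ones_cw`: the length of `cw ts m` is the sum over the terms
of `1 + n + ∑ i, t.1 i`, plus `m`. -/
theorem good_sizes (x : List (Option (F ⊕ Bool))) (h : Good x) :
    tT x ≤ x.length ∧ nn x ≤ x.length ∧
      ∀ u, u < tT x → ∑ i ∈ Finset.range (nn x), ee x u i ≤ x.length := by
  obtain ⟨h1, h2, h3, h4, h5⟩ := h
  obtain ⟨ts, m, hx⟩ := code_of_chk x h3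
  obtain ⟨v1, v2, v3, v4⟩ := vals hx
  refine ⟨List.length_filterMap_le _ _, (Nat.div_le_self _ _).trans List.countP_le_length,
    fun u hu => ?_⟩
  rw [v1] at hu
  rw [Finset.sum_range]
  have h6 : ∑ i : Fin (nn x), ee x u i = ∑ i, ts[u].1 i :=
    Finset.sum_congr rfl fun i _ => v3 u hu i
  have h7 := sum_le_cw ts m _ (List.getElem_mem hu)
  rw [← hx] at h7
  rw [h6]
  exact h7

end Pool.Agent.SIRM
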