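import Pool.Agent.SIRM.CertX
import Pool.Agent.SIRM.FamE
import Pool.Agent.SIRM.FamS
import Pool.Agent.SIRM.Read
import Pool.Agent.SparseIrr.Main

/-!
# Certificates exist exactly for the reducible polynomials
-/

set_option autoImplicit false

namespace Pool.Agent.SIRM

open MvPolynomial Pool.Agent.SparseIrr

variable {F : Type} [Field F] [Fintype F]

/-- Soundness: `not_irreducible_of_cert` (`SparseIrr/Main.lean`); the degrees by
`fam_totalDegree_le` and `degree_fam`. -/
theorem not_irreducible_of_Cert (P : Polynomial ℕ) (x : List (Option (F ⊕ Bool))) (hx : Good x)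
    (w : List Bool) (h : Cert P x w) : ¬ Irreducible (pol x) := by
  obtain ⟨h1, h2, h3, h4, h5⟩ := h
  have key := (degree_fam (nn x) (tT x) (ee x) (cc x) hx.2.2.2.1 hx.2.2.2.2).2
  refine not_irreducible_of_cert (pol x) (xp P x w 0) (xp P x w 1) (xp P x w 2) h1 ?_ ?_ h4 h5
  · exact fam_totalDegree_le _ _ _ _ _ fun u hu => (key _ hx.1).2 (h2 u hu)
  · exact fam_totalDegree_le _ _ _ _ _ fun u hu => (key _ hx.1).2 (h3 u hu)

/-- Completeness: `reducible_iff_cert` (`SparseIrr/Main.lean`) gives `a`, `b`, `w`; their supports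
have at most `P.eval x.length` elements (`support_fam`), so `exists_fam` writes them as families;
the exponents are at most the total degrees, that of `w` is at most that of `pol x`
(`totalDegree_mul_of_isDomain`, `totalDegree_mul`), and that of `pol x` is at most `x.length`
(`fam_totalDegree_le`, `good_sizes`); `exists_xp`, `fam_congr`. -/
theorem exists_Cert (p : ℕ) [Fact p.Prime] [CharP F p] (P : Polynomial ℕ)
    (x : List (Option (F ⊕ Bool))) (hx : Good x) (m : ℕ)
    (hm : ∀ u, u < tT x → ∀ i, i < nn x → ee x u i < p ^ m)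
    (hP : tT x ^ (3 * ((p - 1) * m)) ≤ P.eval x.length)
    (h0 : ∃ u, u < tT x ∧ ∃ i, i < nn x ∧ ee x u i ≠ 0) (h : ¬ Irreducible (pol x)) :
    ∃ w : List Bool,
      w.length = 3 * P.eval x.length * (x.length + 1) * (x.length + Fintype.card F) ∧
      Cert P x w := by
  classical
  obtain ⟨hT, hn, hchk, hd, hc⟩ := id hx
  obtain ⟨hs1, hs2, hs3⟩ := good_sizes x hx
  have key := degree_fam (nn x) (tT x) (ee x) (cc x) hd hc
  have hcard : (pol x).support.card = tT x := (support_fam (nn x) (tT x) (ee x) (cc x) hd hc).1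
  have hp0 : 0 < p ^ m := pow_pos (Fact.out (p := p.Prime)).pos m
  have hdeg : ∀ i, (pol x).degreeOf i < p ^ m := fun i => by
    have h1 := (key.1 (p ^ m - 1)).2 (fun u hu i hi => by
      have h2 := hm u hu i hi
      omega) i
    exact Nat.lt_of_le_sub_one hp0 h1
  have hpos : 0 < (pol x).totalDegree := by
    obtain ⟨u, hu, i, hi, hne⟩ := h0
    refine (key.2 1 hT).2 ⟨u, hu, ?_⟩
    exact (Nat.one_le_iff_ne_zero.2 hne).trans
      (Finset.single_le_sum (f := fun i => ee x u i) (fun _ _ => Nat.zero_le _)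
        (Finset.mem_range.2 hi))
  have hf0 : pol x ≠ 0 := by
    intro h1
    rw [h1] at hpos
    simp at hpos
  obtain ⟨a, b, w, h1, h2, h3, h4, h5, h6, h7, h8⟩ :=
    (reducible_iff_cert p m (pol x) hdeg hpos).1 h
  rw [hcard] at h6 h7 h8
  have hle : tT x ^ ((p - 1) * m) ≤ P.eval x.length :=
    (Nat.pow_le_pow_right hT (by omega)).trans hP
  have hfx : (pol x).totalDegree ≤ x.length := fam_totalDegree_le _ _ _ _ _ hs3
  have hw : w.totalDegree ≤ x.length := by
    by_cases hw0 : w = 0
    · rw [hw0]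
      simp
    · have e1 := totalDegree_mul_of_isDomain hf0 hw0
      have e2 := totalDegree_mul a b
      rw [← h1, e1] at e2
      omega
  obtain ⟨ea, ca, ha1, ha2⟩ := exists_fam (nn x) (P.eval x.length) a (h6.trans hle)
  obtain ⟨eb, cb, hb1, hb2⟩ := exists_fam (nn x) (P.eval x.length) b (h7.trans hle)
  obtain ⟨ew, cw', hw1, hw2⟩ := exists_fam (nn x) (P.eval x.length) w (h8.trans hP)
  obtain ⟨z, hz, hz2⟩ := exists_xp P x hs2
    (fun l u i => if l = 0 then ea u i else if l = 1 then eb u i else ew u i)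
    (fun l u => if l = 0 then ca u else if l = 1 then cb u else cw' u) (fun l u i => by
      split_ifs
      · exact (((ha2 u).1 i).trans h2).trans hfx
      · exact (((hb2 u).1 i).trans h3).trans hfx
      · exact ((hw2 u).1 i).trans hw)
  have ea0 : xp P x z 0 = a := by
    rw [ha1, xp]
    refine fam_congr _ _ (fun u hu i hi => ?_) (fun u hu => ?_)
    · rw [(hz2 0 (by norm_num) u hu).1 i hi, if_pos rfl]
    · rw [(hz2 0 (by norm_num) u hu).2, if_pos rfl]
  have eb0 : xp P x z 1 = b := by
    rw [hb1, xp]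
    refine fam_congr _ _ (fun u hu i hi => ?_) (fun u hu => ?_)
    · rw [(hz2 1 (by norm_num) u hu).1 i hi, if_neg (by norm_num), if_pos rfl]
    · rw [(hz2 1 (by norm_num) u hu).2, if_neg (by norm_num), if_pos rfl]
  have ew0 : xp P x z 2 = w := by
    rw [hw1, xp]
    refine fam_congr _ _ (fun u hu i hi => ?_) (fun u hu => ?_)
    · rw [(hz2 2 (by norm_num) u hu).1 i hi, if_neg (by norm_num), if_neg (by norm_num)]
    · rw [(hz2 2 (by norm_num) u hu).2, if_neg (by norm_num), if_neg (by norm_num)]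
  refine ⟨z, hz, ?_, fun u hu => ?_, fun u hu => ?_, ?_, ?_⟩
  · rw [ea0, eb0, ew0, h1]
  · refine (key.2 _ hT).1 (le_trans (le_of_eq ?_) (((ha2 u).2).trans h2))
    refine Finset.sum_congr rfl fun i hi => ?_
    rw [(hz2 0 (by norm_num) u hu).1 i (Finset.mem_range.1 hi), if_pos rfl]
  · refine (key.2 _ hT).1 (le_trans (le_of_eq ?_) (((hb2 u).2).trans h3))
    refine Finset.sum_congr rfl fun i hi => ?_
    rw [(hz2 1 (by norm_num) u hu).1 i (Finset.mem_range.1 hi), if_neg (by norm_num), if_pos rfl]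
  · rw [ea0]
    exact h4
  · rw [eb0]
    exact h5

end Pool.Agent.SIRM
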