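import Pool.Agent.SIRM.UV

/-!
# The layout of the certificate

The certificate holds three families of `S` terms. The exponent of the variable `i < N` in the term
`u` of the family `l` is the number of bits `true` in a block of length `N` (`N` is the length of the
word), and the coefficient is coded by the number of bits `true` among the first `q` bits of the
block `i = N`.
-/

set_option autoImplicit false

namespace Pool.Agent.SIRM

open Pool.Agent.PT Pool.Agent.Book19

variable {Γ F : Type}

/-- the number of bits `true` in a block -/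
def cbit (N q S : ℕ) (w : List Bool) (l u i b : ℕ) : ℕ :=
  ∑ e ∈ Finset.range b, if w[((l * S + u) * (N + 1) + i) * (N + q) + e]? = some true then 1 else 0

private theorem Lay_div (a : ℕ) {M e : ℕ} (h : e < M) :
    (a * M + e) / M = a ∧ (a * M + e) % M = e := by
  constructor
  · rw [Nat.add_comm, Nat.add_mul_div_right _ _ (by omega), Nat.div_eq_of_lt h, Nat.zero_add]
  · rw [Nat.add_comm, Nat.add_mul_mod_self_right, Nat.mod_eq_of_lt h]

private theorem Lay_lt {a b M e : ℕ} (h : a < b) (he : e < M) : a * M + e < b * M := by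
  have h1 : (a + 1) * M ≤ b * M := Nat.mul_le_mul_right M h
  rw [Nat.add_mul, Nat.one_mul] at h1
  omega

private theorem Lay_sum (b c : ℕ) : (∑ e ∈ Finset.range b, if e < c then 1 else 0) = min b c := by
  rw [Finset.sum_boole]
  have h : (Finset.range b).filter (fun e => e < c) = Finset.range (min b c) := by
    ext e
    simp
  rw [h, Finset.card_range]
  rfl

/-- List.ofFn on `3 * S * (N + 1) * (N + q)` bits, the bit at position
`((l * S + u) * (N + 1) + i) * (N + q) + e` being `e < v l u i` (division with remainder). -/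
theorem exists_cert (N q S : ℕ) (v : ℕ → ℕ → ℕ → ℕ)
    (h : ∀ l, l < 3 → ∀ u, u < S → ∀ i, i ≤ N → v l u i ≤ N + q) :
    ∃ w : List Bool, w.length = 3 * S * (N + 1) * (N + q) ∧
      ∀ l, l < 3 → ∀ u, u < S → ∀ i, i ≤ N → ∀ b, b ≤ N + q →
        cbit N q S w l u i b = min b (v l u i) := by
  refine ⟨List.ofFn (n := 3 * S * (N + 1) * (N + q)) fun p => decide ((p : ℕ) % (N + q) <
    v ((p : ℕ) / (N + q) / (N + 1) / S) ((p : ℕ) / (N + q) / (N + 1) % S)
      ((p : ℕ) / (N + q) % (N + 1))), List.length_ofFn, ?_⟩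
  intro l hl u hu i hi b hb
  unfold cbit
  rw [← Lay_sum]
  refine Finset.sum_congr rfl fun e he => ?_
  have he' : e < N + q := lt_of_lt_of_le (Finset.mem_range.1 he) hb
  have h1 : l * S + u < 3 * S := Lay_lt hl hu
  have h2 : (l * S + u) * (N + 1) + i < 3 * S * (N + 1) := Lay_lt h1 (by omega)
  have h3 : ((l * S + u) * (N + 1) + i) * (N + q) + e < 3 * S * (N + 1) * (N + q) :=
    Lay_lt h2 he'
  rw [List.getElem?_ofFn, dif_pos h3]
  obtain ⟨d1, d2⟩ := Lay_div ((l * S + u) * (N + 1) + i) he'
  obtain ⟨d3, d4⟩ := Lay_div (l * S + u) (show i < N + 1 by omega)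
  obtain ⟨d5, d6⟩ := Lay_div l hu
  simp only [d1, d2, d3, d4, d5, d6, Option.some.injEq, decide_eq_true_eq]

/-- `UP2.bit`, `UF2.sum`, `UF2.ite`, `UF2.add`, `UF2.mul`, `UF2.poly`, `UF2.len`. -/
theorem uf_cbit [Fintype Γ] (q : ℕ) (P : Polynomial ℕ) (l : ℕ)
    {u i b : List Γ → List Bool → (ℕ → ℕ) → ℕ} (hu : UF2 u) (hi : UF2 i) (hb : UF2 b) :
    UF2 fun x w e => cbit x.length q (P.eval x.length) w l (u x w e) (i x w e) (b x w e) := by
  have hS : UF2 (Γ := Γ) (fun x _ _ => P.eval x.length) := UF2.poly P UF2.len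
  have hu' := hu.ren (· + 1)
  have hi' := hi.ren (· + 1)
  have hidx : UF2 (Γ := Γ) (fun x w e => ((l * P.eval x.length + u x w (fun j => e (j + 1))) *
      (x.length + 1) + i x w (fun j => e (j + 1))) * (x.length + q) + e 0) :=
    (((((UF2.const l).mul hS).add hu').mul (UF2.len.add (UF2.const 1))).add hi').mul
      (UF2.len.add (UF2.const q)) |>.add (UF2.var 0)
  exact UF2.sum (f := fun x w e k => if w[((l * P.eval x.length + u x w e) *
      (x.length + 1) + i x w e) * (x.length + q) + k]? = some true then 1 else 0) hb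
    (UF2.ite (UP2.bit hidx) (UF2.const 1) (UF2.const 0))

end Pool.Agent.SIRM
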