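import Pool.Agent.SIRM.ReadDefs
import Pool.Agent.SIRM.Lay

/-!
# Certificates of reducibility on words: definitions
-/

set_option autoImplicit false

namespace Pool.Agent.SIRM

open MvPolynomial

variable {F : Type} [Field F] [Fintype F]

/-- exponents from the certificate -/
noncomputable def xe (P : Polynomial ℕ) (x : List (Option (F ⊕ Bool))) (w : List Bool)
    (l u i : ℕ) : ℕ :=
  cbit x.length (Fintype.card F) (P.eval x.length) w l u i x.length

/-- the element with a given number -/
noncomputable def el (k : ℕ) : F :=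
  if h : k < Fintype.card F then (Fintype.equivFin F).symm ⟨k, h⟩ else 0

/-- coefficients from the certificate -/
noncomputable def xc (P : Polynomial ℕ) (x : List (Option (F ⊕ Bool))) (w : List Bool)
    (l u : ℕ) : F :=
  el (cbit x.length (Fintype.card F) (P.eval x.length) w l u x.length (Fintype.card F))

/-- the polynomials in the certificate -/
noncomputable def xp (P : Polynomial ℕ) (x : List (Option (F ⊕ Bool))) (w : List Bool)
    (l : ℕ) : MvPolynomial (Fin (nn x)) F :=
  fam (nn x) (P.eval x.length) (xe P x w l) (xc P x w l)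

/-- the checks on the certificate -/
def Cert (P : Polynomial ℕ) (x : List (Option (F ⊕ Bool))) (w : List Bool) : Prop :=
  pol x * xp P x w 2 = xp P x w 0 * xp P x w 1 ∧
  (∀ u, u < P.eval x.length → ∃ j, j < tT x ∧
    ∑ i ∈ Finset.range (nn x), xe P x w 0 u i ≤ ∑ i ∈ Finset.range (nn x), ee x j i) ∧
  (∀ u, u < P.eval x.length → ∃ j, j < tT x ∧
    ∑ i ∈ Finset.range (nn x), xe P x w 1 u i ≤ ∑ i ∈ Finset.range (nn x), ee x j i) ∧
  (∀ c : F, xp P x w 0 ≠ C c * pol x) ∧ (∀ c : F, xp P x w 1 ≠ C c * pol x)

end Pool.Agent.SIRM
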