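import Pool.Agent.SIRM.Fam

/-!
# Equality of families of terms is denoted by terms
-/

set_option autoImplicit false

namespace Pool.Agent.SIRM

open Pool.Agent.PT Pool.Agent.Book19

variable {Γ F : Type} [Field F] [Fintype F]

open Classical in
private theorem sum_FamU {n N : List Γ → List Bool → ℕ} {ex ex' : List Γ → List Bool → ℕ → ℕ → ℕ}
    {co : List Γ → List Bool → ℕ → F}
    (hn : UF2 fun x w _ => n x w) (hN : UF2 fun x w _ => N x w)
    (hex : UF2 fun x w e => ex x w (e 0) (e 1)) (hex' : UF2 fun x w e => ex' x w (e 0) (e 1))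
    (hco : UV fun x w e => co x w (e 0)) :
    UV fun x w e => ∑ v ∈ Finset.range (N x w),
      (if ∀ i, i < n x w → ex x w v i = ex' x w (e 0) i then co x w v else 0) := by
  refine UV.sum (b := fun x w _ => N x w) (f := fun x w e v =>
    if ∀ i, i < n x w → ex x w v i = ex' x w (e 0) i then co x w v else 0) hN ?_
  refine UV.ite ?_ hco (UV.const 0)
  refine UP2.ball (b := fun x w _ => n x w) (P := fun x w e i =>
    ex x w (e 0) i = ex' x w (e 1) i) hn ?_
  exact UP2.eq (UF2.comp₂ hex (UF2.var 1) (UF2.var 0)) (UF2.comp₂ hex' (UF2.var 2) (UF2.var 0))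

/-- `fam_eq_fam`, then `UP2.ball`, `UP2.eqV`, `UV.sum`, `UV.ite`, `UP2.eq`, `UV.comp₁`, `UF2.comp₂`
(rename variables by `UF2.ren`, `UF2.subst`, `UV.subst` where necessary). -/
theorem UP2.fam_eq {n N M : List Γ → List Bool → ℕ} {ex ex' : List Γ → List Bool → ℕ → ℕ → ℕ}
    {co co' : List Γ → List Bool → ℕ → F}
    (hn : UF2 fun x w _ => n x w) (hN : UF2 fun x w _ => N x w) (hM : UF2 fun x w _ => M x w)
    (hex : UF2 fun x w e => ex x w (e 0) (e 1)) (hex' : UF2 fun x w e => ex' x w (e 0) (e 1))
    (hco : UV fun x w e => co x w (e 0)) (hco' : UV fun x w e => co' x w (e 0)) :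
    UP2 fun x w _ => fam (n x w) (N x w) (ex x w) (co x w) =
      fam (n x w) (M x w) (ex' x w) (co' x w) := by
  classical
  have h1 : UP2 fun x w _ => ∀ u, u < N x w →
      ∑ v ∈ Finset.range (N x w),
        (if ∀ i, i < n x w → ex x w v i = ex x w u i then co x w v else 0) =
      ∑ v ∈ Finset.range (M x w),
        (if ∀ i, i < n x w → ex' x w v i = ex x w u i then co' x w v else 0) :=
    UP2.ball (b := fun x w _ => N x w) (P := fun x w _ u =>
      ∑ v ∈ Finset.range (N x w),
        (if ∀ i, i < n x w → ex x w v i = ex x w u i then co x w v else 0) =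
      ∑ v ∈ Finset.range (M x w),
        (if ∀ i, i < n x w → ex' x w v i = ex x w u i then co' x w v else 0)) hN
      (UP2.eqV ((sum_FamU hn hN hex hex hco).congr fun x w e => by congr)
        ((sum_FamU hn hM hex' hex hco').congr fun x w e => by congr))
  have h2 : UP2 fun x w _ => ∀ u, u < M x w →
      ∑ v ∈ Finset.range (N x w),
        (if ∀ i, i < n x w → ex x w v i = ex' x w u i then co x w v else 0) =
      ∑ v ∈ Finset.range (M x w),
        (if ∀ i, i < n x w → ex' x w v i = ex' x w u i then co' x w v else 0) :=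
    UP2.ball (b := fun x w _ => M x w) (P := fun x w _ u =>
      ∑ v ∈ Finset.range (N x w),
        (if ∀ i, i < n x w → ex x w v i = ex' x w u i then co x w v else 0) =
      ∑ v ∈ Finset.range (M x w),
        (if ∀ i, i < n x w → ex' x w v i = ex' x w u i then co' x w v else 0)) hM
      (UP2.eqV ((sum_FamU hn hN hex hex' hco).congr fun x w e => by congr)
        ((sum_FamU hn hM hex' hex' hco').congr fun x w e => by congr))
  refine (h1.and h2).congr fun x w _ => ?_
  rw [fam_eq_fam]

end Pool.Agent.SIRM
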