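import Pool.Agent.SIRM.ParOnesU

/-! # `chk` by counting -/

set_option autoImplicit false

namespace Pool.Agent.SIRM

open Pool.Agent.PT Pool.Agent.Book19

variable {F : Type}

private theorem inner_ParChk (a : Option (F ⊕ Bool)) (x : List (Option (F ⊕ Bool))) (q : ℕ) :
    (∀ q', q' < (a :: x).length → q + 1 < q' → (a :: x)[q']? = some none) ↔
      ∀ q', q' < x.length → q < q' → x[q']? = some none := by
  constructor
  · intro H q' h1 h2
    have h3 := H (q' + 1) (by simpa using h1) (by omega)
    simpa using h3
  · intro H q' h1 h2
    obtain ⟨q'', rfl⟩ : ∃ q'', q' = q'' + 1 := ⟨q' - 1, by omega⟩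
    have h3 := H q'' (by simpa using h1) (by omega)
    simpa using h3

/-- the condition at the position `q`, with `s` separators and `t` coefficients before `q` -/
private def St_ParChk (n r s t : ℕ) (x : List (Option (F ⊕ Bool))) (q : ℕ) : Prop :=
  ((∃ a, x[q]? = some (some (Sum.inl a))) → s = r + n * t) ∧
  ((∃ b, x[q]? = some (some (Sum.inr b))) → s < r + n * t) ∧
  (x[q]? = some none → s = r + n * t ∧ ∀ q', q' < x.length → q < q' → x[q']? = some none)

private theorem succ_ParChk (n r s t : ℕ) (a : Option (F ⊕ Bool)) (x : List (Option (F ⊕ Bool)))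
    (q : ℕ) : St_ParChk n r s t (a :: x) (q + 1) ↔ St_ParChk n r s t x q := by
  unfold St_ParChk
  rw [inner_ParChk, List.getElem?_cons_succ]

private theorem split_ParChk {P : ℕ → Prop} (l : ℕ) :
    (∀ q, q < l + 1 → P q) ↔ P 0 ∧ ∀ q, q < l → P (q + 1) := by
  constructor
  · exact fun H => ⟨H 0 (by omega), fun q hq => H (q + 1) (by omega)⟩
  · rintro ⟨h0, h1⟩ q hq
    rcases q with _ | q
    · exact h0
    · exact h1 q (by omega)

private theorem st_congr_ParChk {n r s t r' s' t' : ℕ} (h : s + (r' + n * t') = s' + (r + n * t))
    (x : List (Option (F ⊕ Bool))) (q : ℕ) :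
    St_ParChk n r s t x q ↔ St_ParChk n r' s' t' x q := by
  unfold St_ParChk
  have h1 : s = r + n * t ↔ s' = r' + n * t' := by omega
  have h2 : s < r + n * t ↔ s' < r' + n * t' := by omega
  rw [h1, h2]

/-- `chk` by counting: at every position `q`, with `s` the number of separators, `t` the number of
coefficients before `q` and `R = r + n * t`: for a coefficient letter `s = R`, for a unary mark or a
separator `s < R`, for the padding letter `s = R`, only padding letters after a padding letter, and
`s = R` at the end. -/
theorem chk_iff (n r : ℕ) (x : List (Option (F ⊕ Bool))) : chk n r x ↔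
    (∀ q, q < x.length →
      ((∃ a, x[q]? = some (some (Sum.inl a))) →
        (x.take q).countP isSep = r + n * (x.take q).countP isCo) ∧
      ((∃ b, x[q]? = some (some (Sum.inr b))) →
        (x.take q).countP isSep < r + n * (x.take q).countP isCo) ∧
      (x[q]? = some none →
        (x.take q).countP isSep = r + n * (x.take q).countP isCo ∧
        ∀ q', q' < x.length → q < q' → x[q']? = some none)) ∧
    x.countP isSep = r + n * x.countP isCo := by
  change chk n r x ↔ (∀ q, q < x.length →
    St_ParChk n r ((x.take q).countP isSep) ((x.take q).countP isCo) x q) ∧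
    x.countP isSep = r + n * x.countP isCo
  induction x generalizing r with
  | nil =>
    simp only [chk, List.length_nil, Nat.not_lt_zero, false_imp_iff, implies_true, true_and,
      List.countP_nil, Nat.mul_zero, Nat.add_zero]
    exact eq_comm
  | cons a x ih =>
    rw [List.length_cons, split_ParChk]
    simp only [List.take_zero, List.countP_nil, List.take_succ_cons, succ_ParChk]
    rcases a with _ | (a | b)
    · have e1 : St_ParChk n r 0 0 ((none : Option (F ⊕ Bool)) :: x) 0 ↔
          r = 0 ∧ ∀ y ∈ x, y = none := by
        unfold St_ParChk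
        simp only [List.getElem?_cons_zero, Option.some.injEq, reduceCtorEq, exists_false,
          false_imp_iff, true_imp_iff, true_and, Nat.mul_zero, Nat.add_zero]
        refine and_congr eq_comm ⟨fun H y hy => ?_, fun H q' h1 h2 => ?_⟩
        · obtain ⟨q, hq⟩ := List.mem_iff_getElem?.1 hy
          have h1 : q < x.length := by
            by_contra h
            rw [List.getElem?_eq_none (by omega)] at hq
            exact absurd hq (by simp)
          have h2 := H (q + 1) (by simpa using h1) (by omega)
          rw [List.getElem?_cons_succ, hq] at h2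
          exact Option.some.inj h2
        · obtain ⟨q, rfl⟩ : ∃ q, q' = q + 1 := ⟨q' - 1, by omega⟩
          have h3 : q < x.length := by simpa using h1
          rw [List.getElem?_cons_succ, List.getElem?_eq_getElem h3, H _ (List.getElem_mem h3)]
      rw [e1]
      change (r = 0 ∧ ∀ y ∈ x, y = none) ↔ _
      refine ⟨fun H => ⟨⟨H, fun q hq => ?_⟩, ?_⟩, fun H => H.1.1⟩
      · have h1 : (x.take q).countP isSep = 0 := List.countP_eq_zero.2 fun y hy => by
          rw [H.2 y (List.mem_of_mem_take hy)]
          simp [isSep]
        have h2 : (x.take q).countP isCo = 0 := List.countP_eq_zero.2 fun y hy => by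
          rw [H.2 y (List.mem_of_mem_take hy)]
          simp [isCo]
        have h3 : ∀ q' (_ : q' < x.length), x[q']? = some none := fun q' h => by
          rw [List.getElem?_eq_getElem h, H.2 _ (List.getElem_mem h)]
        unfold St_ParChk
        rw [h3 q hq]
        simp only [Option.some.injEq, reduceCtorEq, exists_false, false_imp_iff, true_imp_iff,
          true_and]
        refine ⟨?_, fun q' h4 _ => h3 q' h4⟩
        rw [List.countP_cons, List.countP_cons, h1, h2, H.1]
        simp [isSep, isCo]
      · have h1 : x.countP isSep = 0 := List.countP_eq_zero.2 fun y hy => by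
          rw [H.2 y hy]
          simp [isSep]
        have h2 : x.countP isCo = 0 := List.countP_eq_zero.2 fun y hy => by
          rw [H.2 y hy]
          simp [isCo]
        rw [List.countP_cons, List.countP_cons, h1, h2, H.1]
        simp [isSep, isCo]
    · have e1 : St_ParChk n r 0 0 (some (Sum.inl a) :: x) 0 ↔ r = 0 := by
        unfold St_ParChk
        simp only [List.getElem?_cons_zero, Option.some.injEq, Sum.inl.injEq, exists_eq',
          reduceCtorEq, exists_false, false_imp_iff, true_imp_iff, and_true, Nat.mul_zero,
          Nat.add_zero]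
        exact eq_comm
      rw [e1]
      change (r = 0 ∧ chk n n x) ↔ _
      rw [and_assoc]
      refine and_congr_right fun hr => ?_
      rw [ih, hr]
      refine and_congr (forall_congr' fun q => forall_congr' fun _ => st_congr_ParChk ?_ _ _) ?_
      · simp only [List.countP_cons, isSep, isCo]
        simp
        ring
      · simp only [List.countP_cons, isSep, isCo]
        simp
        ring_nf
    · cases b
      · have e1 : St_ParChk n r 0 0 ((some (Sum.inr false) : Option (F ⊕ Bool)) :: x) 0 ↔ 0 < r := by
          unfold St_ParChk
          simp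
        rw [e1]
        change (0 < r ∧ chk n (r - 1) x) ↔ _
        rw [and_assoc]
        refine and_congr_right fun hr => ?_
        rw [ih]
        refine and_congr (forall_congr' fun q => forall_congr' fun _ => st_congr_ParChk ?_ _ _) ?_
        · simp only [List.countP_cons, isSep, isCo]
          simp
          omega
        · simp only [List.countP_cons, isSep, isCo]
          simp
          omega
      · have e1 : St_ParChk n r 0 0 ((some (Sum.inr true) : Option (F ⊕ Bool)) :: x) 0 ↔ 0 < r := by
          unfold St_ParChk
          simp
        rw [e1]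
        change (0 < r ∧ chk n r x) ↔ _
        rw [and_assoc]
        refine and_congr_right fun hr => ?_
        rw [ih]
        refine and_congr (forall_congr' fun q => forall_congr' fun _ => st_congr_ParChk ?_ _ _) ?_
        · simp only [List.countP_cons, isSep, isCo]
          simp
        · simp only [List.countP_cons, isSep, isCo]
          simp

/-- From `chk_iff`, `uf_prefix`, `UF.countP`. -/
theorem up_chk [Fintype F] {f g : List (Option (F ⊕ Bool)) → (ℕ → ℕ) → ℕ} (hf : UF f) (hg : UF g) :
    UP fun x e => chk (f x e) (g x e) x := by
  have hS : UF fun (x : List (Option (F ⊕ Bool))) e => (x.take (e 0)).countP isSep :=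
    uf_prefix isSep (UF.var 0)
  have hC : UF fun (x : List (Option (F ⊕ Bool))) e => (x.take (e 0)).countP isCo :=
    uf_prefix isCo (UF.var 0)
  have hR : UF fun (x : List (Option (F ⊕ Bool))) e => g x (fun i => e (i + 1)) +
      f x (fun i => e (i + 1)) * (x.take (e 0)).countP isCo :=
    (UF.ren (fun i => i + 1) hg).add ((UF.ren (fun i => i + 1) hf).mul hC)
  have h1 : UP fun (x : List (Option (F ⊕ Bool))) (e : ℕ → ℕ) =>
      (∃ a : F, x[e 0]? = some (some (Sum.inl a))) → (x.take (e 0)).countP isSep =
        g x (fun i => e (i + 1)) + f x (fun i => e (i + 1)) * (x.take (e 0)).countP isCo :=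
    (UP.fex fun a => UP.sym _ (UF.var 0)).imp (UP.eq hS hR)
  have h2 : UP fun (x : List (Option (F ⊕ Bool))) (e : ℕ → ℕ) =>
      (∃ b : Bool, x[e 0]? = some (some (Sum.inr b))) → (x.take (e 0)).countP isSep <
        g x (fun i => e (i + 1)) + f x (fun i => e (i + 1)) * (x.take (e 0)).countP isCo :=
    (UP.fex fun b => UP.sym _ (UF.var 0)).imp (UP.lt hS hR)
  have h3 : UP fun (x : List (Option (F ⊕ Bool))) (e : ℕ → ℕ) =>
      ∀ q', q' < x.length → e 0 < q' → x[q']? = some none :=
    UP.ball (P := fun x e q' => e 0 < q' → x[q']? = some none) UF.len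
      ((UP.lt (UF.var 1) (UF.var 0)).imp (UP.sym none (UF.var 0)))
  have h4 : UP fun (x : List (Option (F ⊕ Bool))) (e : ℕ → ℕ) =>
      x[e 0]? = some none → ((x.take (e 0)).countP isSep =
        g x (fun i => e (i + 1)) + f x (fun i => e (i + 1)) * (x.take (e 0)).countP isCo ∧
        ∀ q', q' < x.length → e 0 < q' → x[q']? = some none) :=
    (UP.sym none (UF.var 0)).imp ((UP.eq hS hR).and h3)
  refine ((UP.ball (P := fun x e q => ((∃ a, x[q]? = some (some (Sum.inl a))) →
        (x.take q).countP isSep = g x e + f x e * (x.take q).countP isCo) ∧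
      ((∃ b, x[q]? = some (some (Sum.inr b))) →
        (x.take q).countP isSep < g x e + f x e * (x.take q).countP isCo) ∧
      (x[q]? = some none →
        (x.take q).countP isSep = g x e + f x e * (x.take q).countP isCo ∧
        ∀ q', q' < x.length → q < q' → x[q']? = some none)) UF.len
    (h1.and (h2.and h4))).and (UP.eq (UF.countP isSep)
      (hg.add (hf.mul (UF.countP isCo))))).congr fun x e => ?_
  exact (chk_iff _ _ _).symm

end Pool.Agent.SIRM
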