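import Pool.Agent.SIRM.ReadDefs
import Pool.Agent.SIRM.ParChk

/-!
# The reading functions are denoted by terms
-/

set_option autoImplicit false

namespace Pool.Agent.SIRM

open Pool.Agent.PT Pool.Agent.Book19

variable {F : Type} [Field F] [Fintype F]

/-- `uf_coefs_length`, `UF2.ofUF`. -/
theorem uf_tT : UF2 fun (x : List (Option (F ⊕ Bool))) _ _ => tT x :=
  UF2.ofUF (f := fun (x : List (Option (F ⊕ Bool))) _ => (coefs x).length) uf_coefs_length

/-- `UF.countP`, `UF2.ofUF`, `UF2.div`. -/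
theorem uf_nn : UF2 fun (x : List (Option (F ⊕ Bool))) _ _ => nn x :=
  (UF2.ofUF (UF.countP (isSep (F := F)))).div uf_tT

/-- `uf_ones` with the variable `e 0`, `UF2.ofUF`, `UF2.comp₁`. -/
theorem uf_ee : UF2 fun (x : List (Option (F ⊕ Bool))) _ e => ee x (e 0) (e 1) :=
  UF2.comp₁ (f := fun (x : List (Option (F ⊕ Bool))) _ k => ones x k)
    (UF2.ofUF (uf_ones (UF.var 0))) (((UF2.var 0).mul uf_nn).add (UF2.var 1))

/-- `uv_coefs`. -/
theorem uv_cc : UV fun (x : List (Option (F ⊕ Bool))) _ e => cc x (e 0) := uv_coefs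

/-- `up_chk` (first with variables `e 0`, `e 1`, then `UP2.ofUP` and `UP2.comp₂`), `UP2.ball`, `UP2.bex`,
`UP2.not`, `UF2.comp₂`. -/
theorem up_good : UP2 fun (x : List (Option (F ⊕ Bool))) _ _ => Good x := by
  have h1 : UP2 fun (x : List (Option (F ⊕ Bool))) _ _ => 0 < tT x :=
    UP2.lt (UF2.const 0) uf_tT
  have h2 : UP2 fun (x : List (Option (F ⊕ Bool))) _ _ => 0 < nn x :=
    UP2.lt (UF2.const 0) uf_nn
  have h3 : UP2 fun (x : List (Option (F ⊕ Bool))) _ _ => chk (nn x) 0 x :=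
    UP2.comp₂ (P := fun (x : List (Option (F ⊕ Bool))) _ a b => chk a b x)
      (UP2.ofUP (up_chk (UF.var 0) (UF.var 1))) uf_nn (UF2.const 0)
  have he : ∀ f g : List (Option (F ⊕ Bool)) → List Bool → (ℕ → ℕ) → ℕ, UF2 f → UF2 g →
      UF2 fun (x : List (Option (F ⊕ Bool))) w e => ee x (f x w e) (g x w e) :=
    fun f g hf hg => UF2.comp₂ (f := fun (x : List (Option (F ⊕ Bool))) _ a b => ee x a b)
      uf_ee hf hg
  have h4 : UP2 fun (x : List (Option (F ⊕ Bool))) _ _ => ∀ u, u < tT x →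
      ∀ v, v < tT x → u ≠ v → ∃ i, i < nn x ∧ ee x u i ≠ ee x v i := by
    refine UP2.ball (P := fun x _ _ u => ∀ v, v < tT x → u ≠ v →
      ∃ i, i < nn x ∧ ee x u i ≠ ee x v i) uf_tT ?_
    refine UP2.ball (P := fun x _ e v => e 0 ≠ v →
      ∃ i, i < nn x ∧ ee x (e 0) i ≠ ee x v i) uf_tT ?_
    refine UP2.imp (UP2.eq (UF2.var 1) (UF2.var 0)).not ?_
    refine UP2.bex (P := fun x _ e i => ee x (e 1) i ≠ ee x (e 0) i) uf_nn ?_
    exact (UP2.eq (he _ _ (UF2.var 2) (UF2.var 0)) (he _ _ (UF2.var 1) (UF2.var 0))).not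
  have h5 : UP2 fun (x : List (Option (F ⊕ Bool))) _ _ => ∀ u, u < tT x → cc x u ≠ 0 :=
    UP2.ball (P := fun x _ _ u => cc x u ≠ 0) uf_tT (uv_cc 0).not
  exact h1.and (h2.and (h3.and (h4.and h5)))

end Pool.Agent.SIRM
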