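import Pool.Agent.SIRM.CertDefs
import Pool.Agent.SIRM.ReadU
import Pool.Agent.SIRM.FamU

/-!
# The checks on the certificate are denoted by terms
-/

set_option autoImplicit false

namespace Pool.Agent.SIRM

open Pool.Agent.PT Pool.Agent.Book19 MvPolynomial

variable {F : Type} [Field F] [Fintype F]

omit [Field F] in
private theorem certu_len (P : Polynomial ℕ) :
    UF2 fun (x : List (Option (F ⊕ Bool))) _ _ => P.eval x.length :=
  UF2.poly P UF2.len

omit [Field F] in
private theorem certu_xe (P : Polynomial ℕ) (l : ℕ)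
    {g h : List (Option (F ⊕ Bool)) → List Bool → (ℕ → ℕ) → ℕ} (hg : UF2 g) (hh : UF2 h) :
    UF2 fun (x : List (Option (F ⊕ Bool))) w e => xe P x w l (g x w e) (h x w e) :=
  uf_cbit (Fintype.card F) P l hg hh UF2.len

private theorem certu_ee {g h : List (Option (F ⊕ Bool)) → List Bool → (ℕ → ℕ) → ℕ}
    (hg : UF2 g) (hh : UF2 h) :
    UF2 fun (x : List (Option (F ⊕ Bool))) w e => ee x (g x w e) (h x w e) :=
  UF2.comp₂ (f := fun (x : List (Option (F ⊕ Bool))) _ a b => ee x a b) uf_ee hg hh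

private theorem certu_cbit_le (N q S : ℕ) (w : List Bool) (l u i b : ℕ) :
    cbit N q S w l u i b ≤ b := by
  unfold cbit
  refine (Finset.sum_le_card_nsmul (Finset.range b) _ 1 fun e _ => ?_).trans ?_
  · split_ifs <;> simp
  · simp

private theorem certu_xc (P : Polynomial ℕ) (l : ℕ)
    {g : List (Option (F ⊕ Bool)) → List Bool → (ℕ → ℕ) → ℕ} (hg : UF2 g) :
    UV fun (x : List (Option (F ⊕ Bool))) w e => xc P x w l (g x w e) :=
  UV.table (el (F := F)) (Fintype.card F + 1)
    (f := fun (x : List (Option (F ⊕ Bool))) w e => cbit x.length (Fintype.card F)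
      (P.eval x.length) w l (g x w e) x.length (Fintype.card F))
    (uf_cbit (Fintype.card F) P l hg UF2.len (UF2.const _))
    fun _ _ _ => Nat.lt_succ_of_le (certu_cbit_le _ _ _ _ _ _ _ _)

private theorem certu_cc {g : List (Option (F ⊕ Bool)) → List Bool → (ℕ → ℕ) → ℕ}
    (hg : UF2 g) : UV fun (x : List (Option (F ⊕ Bool))) w e => cc x (g x w e) :=
  UV.comp₁ (f := fun (x : List (Option (F ⊕ Bool))) _ k => cc x k) uv_cc hg

private theorem certu_mul (P : Polynomial ℕ) :
    UP2 fun (x : List (Option (F ⊕ Bool))) w _ =>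
      pol x * xp P x w 2 = xp P x w 0 * xp P x w 1 := by
  have hM := certu_len (F := F) P
  have hd : UF2 fun (x : List (Option (F ⊕ Bool))) _ e => e 0 / P.eval x.length :=
    (UF2.var 0).div hM
  have hm : UF2 fun (x : List (Option (F ⊕ Bool))) _ e => e 0 % P.eval x.length :=
    (UF2.var 0).mod hM
  refine (UP2.fam_eq (Γ := Option (F ⊕ Bool)) (F := F) (n := fun x _ => nn x)
    (N := fun x _ => tT x * P.eval x.length)
    (M := fun x _ => P.eval x.length * P.eval x.length)
    (ex := fun x w u i => ee x (u / P.eval x.length) i + xe P x w 2 (u % P.eval x.length) i)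
    (ex' := fun x w u i => xe P x w 0 (u / P.eval x.length) i +
      xe P x w 1 (u % P.eval x.length) i)
    (co := fun x w u => cc x (u / P.eval x.length) * xc P x w 2 (u % P.eval x.length))
    (co' := fun x w u => xc P x w 0 (u / P.eval x.length) *
      xc P x w 1 (u % P.eval x.length)) uf_nn (uf_tT.mul hM) (hM.mul hM) ?_ ?_ ?_ ?_).congr
    fun x w e => ?_
  · exact (certu_ee hd (UF2.var 1)).add (certu_xe P 2 hm (UF2.var 1))
  · exact (certu_xe P 0 hd (UF2.var 1)).add (certu_xe P 1 hm (UF2.var 1))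
  · exact UV.map₂ (fun a b : F => a * b) (certu_cc hd) (certu_xc P 2 hm)
  · exact UV.map₂ (fun a b : F => a * b) (certu_xc P 0 hd) (certu_xc P 1 hm)
  · unfold pol xp
    rw [fam_mul, fam_mul]

private theorem certu_deg (P : Polynomial ℕ) (l : ℕ) :
    UP2 fun (x : List (Option (F ⊕ Bool))) w _ =>
      ∀ u, u < P.eval x.length → ∃ j, j < tT x ∧
        ∑ i ∈ Finset.range (nn x), xe P x w l u i ≤ ∑ i ∈ Finset.range (nn x), ee x j i := by
  refine UP2.ball (P := fun x w _ u => ∃ j, j < tT x ∧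
    ∑ i ∈ Finset.range (nn x), xe P x w l u i ≤ ∑ i ∈ Finset.range (nn x), ee x j i)
    (certu_len P) ?_
  refine UP2.bex (P := fun x w e j => ∑ i ∈ Finset.range (nn x), xe P x w l (e 0) i ≤
    ∑ i ∈ Finset.range (nn x), ee x j i) uf_tT ?_
  refine UP2.le (UF2.sum (f := fun x w e i => xe P x w l (e 1) i) uf_nn ?_)
    (UF2.sum (f := fun x w e i => ee x (e 0) i) uf_nn ?_)
  · exact certu_xe P l (UF2.var 2) (UF2.var 0)
  · exact certu_ee (UF2.var 1) (UF2.var 0)

private theorem certu_ne (P : Polynomial ℕ) (l : ℕ) :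
    UP2 fun (x : List (Option (F ⊕ Bool))) w _ => ∀ c : F, xp P x w l ≠ C c * pol x := by
  refine UP2.fall fun c => UP2.not ?_
  refine (UP2.fam_eq (Γ := Option (F ⊕ Bool)) (F := F) (n := fun x _ => nn x)
    (N := fun x _ => P.eval x.length) (M := fun x _ => tT x)
    (ex := fun x w u i => xe P x w l u i) (ex' := fun x _ u i => ee x u i)
    (co := fun x w u => xc P x w l u) (co' := fun x _ u => c * cc x u)
    uf_nn (certu_len P) uf_tT ?_ ?_ ?_ ?_).congr fun x w e => ?_
  · exact certu_xe P l (UF2.var 0) (UF2.var 1)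
  · exact certu_ee (UF2.var 0) (UF2.var 1)
  · exact certu_xc P l (UF2.var 0)
  · exact UV.map (fun a : F => c * a) (certu_cc (UF2.var 0))
  · unfold pol xp
    rw [C_mul_fam]

/-- `fam_mul`, `C_mul_fam` turn the equations into equations of families, `UP2.fam_eq`;
`uf_cbit`, `UV.table`, `UV.map₂`, `uf_ee`, `uv_cc`, `uf_tT`, `uf_nn`. -/
theorem up_cert (P : Polynomial ℕ) : UP2 fun (x : List (Option (F ⊕ Bool))) w _ => Cert P x w := by
  exact (certu_mul P).and ((certu_deg P 0).and ((certu_deg P 1).and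
    ((certu_ne P 0).and (certu_ne P 1))))

end Pool.Agent.SIRM
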