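import Pool.Agent.SIRM.CertDefs

/-!
# Families of terms are read from certificates
-/

set_option autoImplicit false

namespace Pool.Agent.SIRM

open MvPolynomial

variable {F : Type} [Field F] [Fintype F]

/-- Any three families of terms are read from some certificate: `exists_cert` with
`v l u i = ex l u i` for `i < x.length` and `v l u x.length` the number of `co l u`. -/
theorem exists_xp (P : Polynomial ℕ) (x : List (Option (F ⊕ Bool))) (hn : nn x ≤ x.length)
    (ex : ℕ → ℕ → ℕ → ℕ) (co : ℕ → ℕ → F) (h : ∀ l u i, ex l u i ≤ x.length) :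
    ∃ w : List Bool, w.length = 3 * P.eval x.length * (x.length + 1) * (x.length + Fintype.card F) ∧
      ∀ l, l < 3 → ∀ u, u < P.eval x.length →
        (∀ i, i < nn x → xe P x w l u i = ex l u i) ∧ xc P x w l u = co l u := by
  classical
  obtain ⟨w, hw, hb⟩ := exists_cert x.length (Fintype.card F) (P.eval x.length)
    (fun l u i => if i < x.length then ex l u i else ((Fintype.equivFin F) (co l u) : ℕ))
    (fun l _ u _ i _ => by
      split_ifs with hi
      · exact (h l u i).trans (Nat.le_add_right _ _)
      · exact ((Fintype.equivFin F) (co l u)).2.le.trans (Nat.le_add_left _ _))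
  refine ⟨w, hw, fun l hl u hu => ⟨fun i hi => ?_, ?_⟩⟩
  · have hi' : i < x.length := lt_of_lt_of_le hi hn
    have h1 := hb l hl u hu i hi'.le x.length (Nat.le_add_right _ _)
    unfold xe
    rw [h1, if_pos hi', min_eq_right (h l u i)]
  · have h1 := hb l hl u hu x.length le_rfl (Fintype.card F) (Nat.le_add_left _ _)
    have h2 : ((Fintype.equivFin F) (co l u) : ℕ) < Fintype.card F :=
      ((Fintype.equivFin F) (co l u)).2
    unfold xc
    rw [h1, if_neg (lt_irrefl _), min_eq_right h2.le]
    unfold el
    rw [dif_pos h2]
    exact (Fintype.equivFin F).symm_apply_apply (co l u)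

end Pool.Agent.SIRM
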