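import Pool.Agent.SIRM.Cert
import Pool.Agent.SIRM.CertU

/-!
# Irreducibility of sparse polynomials in coNP
-/

set_option autoImplicit false

namespace Pool.Agent.SIRM

open Pool.Agent.PT Pool.Agent.Book19 MvPolynomial

variable {F : Type} [Field F] [Fintype F]

omit [Fintype F] in
/-- a polynomial whose terms all have exponents zero is not irreducible -/
private theorem zero_Core (x : List (Option (F ⊕ Bool)))
    (h : ∀ u, u < tT x → ∀ i, i < nn x → ee x u i = 0) : ¬ Irreducible (pol x) := by
  classical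
  have h1 : pol x = C (∑ u ∈ Finset.range (tT x), cc x u) := by
    rw [map_sum, pol, fam]
    refine Finset.sum_congr rfl fun u hu => ?_
    have h2 : (Finsupp.equivFunOnFinite.symm fun i : Fin (nn x) => ee x u i) = 0 := by
      ext i
      exact h u (Finset.mem_range.1 hu) i i.2
    rw [h2]
    rfl
  rw [h1]
  intro hirr
  by_cases h3 : (∑ u ∈ Finset.range (tT x), cc x u : F) = 0
  · rw [h3, map_zero] at hirr
    exact not_irreducible_zero hirr
  · exact hirr.not_isUnit ((isUnit_iff_ne_zero.2 h3).map (C : F →+* MvPolynomial (Fin (nn x)) F))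

/-- `inNP_of_UP2` with the polynomial `3 * P * (X + 1) * (X + card F)` and the verifier
`¬ Good x ∨ ¬ B x ∨ (∀ u i, ee x u i = 0) ∨ Cert P x w`. -/
theorem core (p : ℕ) [Fact p.Prime] [CharP F p] (B : List (Option (F ⊕ Bool)) → Prop)
    (hB : UP2 fun x _ _ => B x) (P : Polynomial ℕ)
    (hP : ∀ x, Good x → B x → ∃ m, (∀ u, u < tT x → ∀ i, i < nn x → ee x u i < p ^ m) ∧
      tT x ^ (3 * ((p - 1) * m)) ≤ P.eval x.length) :
    InNP {x : List (Option (F ⊕ Bool)) | Good x ∧ B x ∧ Irreducible (pol x)}ᶜ := by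
  classical
  refine inNP_of_UP2 _ (Polynomial.C 3 * P * (Polynomial.X + Polynomial.C 1) *
    (Polynomial.X + Polynomial.C (Fintype.card F)))
    (fun x w => ¬ Good x ∨ ¬ B x ∨ (∀ u, u < tT x → ∀ i, i < nn x → ee x u i = 0) ∨ Cert P x w)
    ?_ fun x => ?_
  · refine up_good.not.or (hB.not.or (UP2.or ?_ (up_cert P)))
    refine UP2.ball (P := fun x _ _ u => ∀ i, i < nn x → ee x u i = 0) uf_tT ?_
    refine UP2.ball (P := fun x _ e i => ee x (e 0) i = 0) uf_nn ?_
    exact UP2.eq (UF2.comp₂ (f := fun x _ u i => ee x u i) uf_ee (UF2.var 1) (UF2.var 0))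
      (UF2.const 0)
  · have hev : (Polynomial.C 3 * P * (Polynomial.X + Polynomial.C 1) *
        (Polynomial.X + Polynomial.C (Fintype.card F))).eval x.length =
        3 * P.eval x.length * (x.length + 1) * (x.length + Fintype.card F) := by
      simp only [Polynomial.eval_mul, Polynomial.eval_add, Polynomial.eval_C, Polynomial.eval_X]
    rw [hev, Set.mem_compl_iff, Set.mem_ofPred_eq]
    constructor
    · intro hx
      by_cases h1 : Good x
      · by_cases h2 : B x
        · have h3 : ¬ Irreducible (pol x) := fun h => hx ⟨h1, h2, h⟩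
          by_cases h4 : ∀ u, u < tT x → ∀ i, i < nn x → ee x u i = 0
          · exact ⟨[], Nat.zero_le _, Or.inr (Or.inr (Or.inl h4))⟩
          · push Not at h4
            obtain ⟨m, hm, hm2⟩ := hP x h1 h2
            obtain ⟨u, hu, i, hi, hne⟩ := h4
            obtain ⟨w, hw, hc⟩ := exists_Cert p P x h1 m hm hm2 ⟨u, hu, i, hi, hne⟩ h3
            exact ⟨w, hw.le, Or.inr (Or.inr (Or.inr hc))⟩
        · exact ⟨[], Nat.zero_le _, Or.inr (Or.inl h2)⟩
      · exact ⟨[], Nat.zero_le _, Or.inl h1⟩
    · rintro ⟨w, -, hw⟩ ⟨h1, h2, h3⟩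
      rcases hw with h | h | h | h
      · exact h h1
      · exact h h2
      · exact zero_Core x h h3
      · exact not_irreducible_of_Cert P x h1 w h h3

end Pool.Agent.SIRM
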