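import Pool.Agent.PT.NPDefs

/-!
# The irreducibility problem for sparse polynomials as a language

The letters of a word are the coefficients (`some (inl a)`, `a ∈ F`), the unary mark
`some (inr true)`, the separator `some (inr false)` and the padding letter `none`.
-/

set_option autoImplicit false

namespace Pool.Agent.SIRM

/-- The code of a term: the coefficient, then for every variable the exponent in unary, followed by
a separator. -/
def encTerm {F : Type} {n : ℕ} (t : (Fin n → ℕ) × F) : List (F ⊕ Bool) :=
  Sum.inl t.2 ::
    (List.ofFn fun i => List.replicate (t.1 i) (Sum.inr true) ++ [Sum.inr false]).flatten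

/-- The code of a list of terms. -/
def encTerms {F : Type} {n : ℕ} (ts : List ((Fin n → ℕ) × F)) : List (F ⊕ Bool) :=
  (ts.map encTerm).flatten

/-- `ts` is a list of the nonzero terms of `f`, every term once, in some order. -/
structure IsRep {F : Type} [Field F] {n : ℕ} (ts : List ((Fin n → ℕ) × F))
    (f : MvPolynomial (Fin n) F) : Prop where
  nodup : (ts.map Prod.fst).Nodup
  ne : ∀ t ∈ ts, t.2 ≠ 0
  sum : f = (ts.map fun t =>
    MvPolynomial.monomial (Finsupp.equivFunOnFinite.symm t.1) t.2).sum

/-- `x` is a code of `f` followed by padding letters. -/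
def IsCode {F : Type} [Field F] {n : ℕ} (x : List (Option (F ⊕ Bool)))
    (f : MvPolynomial (Fin n) F) : Prop :=
  ∃ (ts : List ((Fin n → ℕ) × F)) (m : ℕ), IsRep ts f ∧
    x = (encTerms ts).map some ++ List.replicate m none

/-- The codes, possibly padded, of the irreducible polynomials `f` over `F` (in any number of
variables) such that `log s * log d ≤ c * log N`, where `s` is the number of monomials of `f`, `d` a
bound for the degree of `f` in each variable and `N` the length of the word (logarithms to base
two, rounded down). -/
def Irr (F : Type) [Field F] (c : ℕ) : Set (List (Option (F ⊕ Bool))) :=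
  {x | ∃ (n : ℕ) (f : MvPolynomial (Fin n) F) (d : ℕ), IsCode x f ∧ (∀ i, f.degreeOf i ≤ d) ∧
    Nat.log 2 f.support.card * Nat.log 2 d ≤ c * Nat.log 2 x.length ∧ Irreducible f}

end Pool.Agent.SIRM
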