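import Pool.Agent.SIRM.UV

/-!
# Polynomials given by families of terms
-/

set_option autoImplicit false

namespace Pool.Agent.SIRM

open MvPolynomial

variable {F : Type} [Field F]

/-- the polynomial with the terms `co u * x ^ (ex u)`, `u < N` -/
noncomputable def fam (n N : ℕ) (ex : ℕ → ℕ → ℕ) (co : ℕ → F) : MvPolynomial (Fin n) F :=
  ∑ u ∈ Finset.range N, monomial (Finsupp.equivFunOnFinite.symm fun i : Fin n => ex u i) (co u)

open Classical in
theorem coeff_fam (n N : ℕ) (ex : ℕ → ℕ → ℕ) (co : ℕ → F) (m : Fin n →₀ ℕ) :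
    coeff m (fam n N ex co) =
      ∑ v ∈ Finset.range N, if ∀ i : Fin n, ex v i = m i then co v else 0 := by
  unfold fam
  rw [coeff_sum]
  refine Finset.sum_congr rfl fun v _ => ?_
  rw [coeff_monomial]
  by_cases h : ∀ i : Fin n, ex v i = m i
  · rw [if_pos h, if_pos]
    ext i
    exact h i
  · rw [if_neg h, if_neg]
    intro h1
    apply h
    intro i
    have h2 := DFunLike.congr_fun h1 i
    exact h2

open Classical in
private theorem fam_coeff_at (n N : ℕ) (ex : ℕ → ℕ → ℕ) (co : ℕ → F) (m : Fin n →₀ ℕ) (f : ℕ → ℕ)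
    (hm : ∀ i : Fin n, f i = m i) :
    coeff m (fam n N ex co) =
      ∑ v ∈ Finset.range N, (if ∀ i, i < n → ex v i = f i then co v else 0) := by
  rw [coeff_fam]
  refine Finset.sum_congr rfl fun v _ => ?_
  by_cases h : ∀ i, i < n → ex v i = f i
  · rw [if_pos h, if_pos]
    intro i
    rw [h i i.2, hm i]
  · rw [if_neg h, if_neg]
    intro h1
    apply h
    intro i hi
    have h2 := h1 ⟨i, hi⟩
    rw [← hm ⟨i, hi⟩] at h2
    exact h2

private theorem fam_coeff_zero (n N : ℕ) (ex : ℕ → ℕ → ℕ) (co : ℕ → F) (m : Fin n →₀ ℕ)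
    (h : ¬ ∃ u, u < N ∧ ∀ i : Fin n, ex u i = m i) : coeff m (fam n N ex co) = 0 := by
  rw [coeff_fam]
  refine Finset.sum_eq_zero fun v hv => ?_
  rw [if_neg]
  intro h1
  exact h ⟨v, Finset.mem_range.mp hv, h1⟩

open Classical in
/-- The coefficients of both sides at the exponents of the families (`coeff_fam`); at any other
exponent both coefficients are zero (all terms of the sums vanish). -/
theorem fam_eq_fam (n N M : ℕ) (ex : ℕ → ℕ → ℕ) (co : ℕ → F) (ex' : ℕ → ℕ → ℕ) (co' : ℕ → F) :
    fam n N ex co = fam n M ex' co' ↔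
      (∀ u, u < N → ∑ v ∈ Finset.range N, (if ∀ i, i < n → ex v i = ex u i then co v else 0) =
        ∑ v ∈ Finset.range M, (if ∀ i, i < n → ex' v i = ex u i then co' v else 0)) ∧
      (∀ u, u < M → ∑ v ∈ Finset.range N, (if ∀ i, i < n → ex v i = ex' u i then co v else 0) =
        ∑ v ∈ Finset.range M, (if ∀ i, i < n → ex' v i = ex' u i then co' v else 0)) := by
  constructor
  · intro h
    constructor
    · intro u _
      have h1 := congrArg
        (coeff (Finsupp.equivFunOnFinite.symm fun i : Fin n => ex u i)) h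
      rw [fam_coeff_at n N ex co _ (ex u) fun i => rfl,
        fam_coeff_at n M ex' co' _ (ex u) fun i => rfl] at h1
      exact h1
    · intro u _
      have h1 := congrArg
        (coeff (Finsupp.equivFunOnFinite.symm fun i : Fin n => ex' u i)) h
      rw [fam_coeff_at n N ex co _ (ex' u) fun i => rfl,
        fam_coeff_at n M ex' co' _ (ex' u) fun i => rfl] at h1
      exact h1
  · rintro ⟨h1, h2⟩
    apply MvPolynomial.ext
    intro m
    by_cases hN : ∃ u, u < N ∧ ∀ i : Fin n, ex u i = m i
    · obtain ⟨u, hu, hm⟩ := hN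
      rw [fam_coeff_at n N ex co m (ex u) hm, fam_coeff_at n M ex' co' m (ex u) hm]
      exact h1 u hu
    · by_cases hM : ∃ u, u < M ∧ ∀ i : Fin n, ex' u i = m i
      · obtain ⟨u, hu, hm⟩ := hM
        rw [fam_coeff_at n N ex co m (ex' u) hm, fam_coeff_at n M ex' co' m (ex' u) hm]
        exact h2 u hu
      · rw [fam_coeff_zero n N ex co m hN, fam_coeff_zero n M ex' co' m hM]

/-- `Finset.sum_mul_sum`, `monomial_mul`, and the bijection `u ↦ (u / M, u % M)` of `range (N * M)`
with `range N ×ˢ range M` (for `M = 0` both sides are zero). -/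
theorem fam_mul (n N M : ℕ) (ex : ℕ → ℕ → ℕ) (co : ℕ → F) (ex' : ℕ → ℕ → ℕ) (co' : ℕ → F) :
    fam n N ex co * fam n M ex' co' =
      fam n (N * M) (fun u i => ex (u / M) i + ex' (u % M) i) (fun u => co (u / M) * co' (u % M)) := by
  unfold fam
  rw [Finset.sum_mul_sum, ← Finset.sum_product']
  refine Finset.sum_nbij' (fun p => p.1 * M + p.2) (fun u => (u / M, u % M)) ?_ ?_ ?_ ?_ ?_
  · rintro ⟨a, b⟩ hab
    simp only [Finset.mem_product, Finset.mem_range] at hab ⊢
    calc a * M + b < a * M + M := by omega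
      _ = (a + 1) * M := by ring
      _ ≤ N * M := Nat.mul_le_mul_right _ (by omega)
  · intro u hu
    simp only [Finset.mem_product, Finset.mem_range] at hu ⊢
    have hM : 0 < M := Nat.pos_of_ne_zero (by rintro rfl; simp at hu)
    exact ⟨(Nat.div_lt_iff_lt_mul hM).2 hu, Nat.mod_lt _ hM⟩
  · rintro ⟨a, b⟩ hab
    simp only [Finset.mem_product, Finset.mem_range] at hab
    have hM : 0 < M := by omega
    have h1 : (a * M + b) / M = a := by
      rw [add_comm, Nat.add_mul_div_right _ _ hM, Nat.div_eq_of_lt hab.2, zero_add]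
    have h2 : (a * M + b) % M = b := by
      rw [add_comm, Nat.add_mul_mod_self_right, Nat.mod_eq_of_lt hab.2]
    simp only [h1, h2]
  · intro u _
    exact Nat.div_add_mod' u M
  · rintro ⟨a, b⟩ hab
    simp only [Finset.mem_product, Finset.mem_range] at hab
    have hM : 0 < M := by omega
    have h1 : (a * M + b) / M = a := by
      rw [add_comm, Nat.add_mul_div_right _ _ hM, Nat.div_eq_of_lt hab.2, zero_add]
    have h2 : (a * M + b) % M = b := by
      rw [add_comm, Nat.add_mul_mod_self_right, Nat.mod_eq_of_lt hab.2]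
    simp only [h1, h2]
    rw [monomial_mul]
    have h3 : (Finsupp.equivFunOnFinite.symm fun i : Fin n => ex a i) +
        (Finsupp.equivFunOnFinite.symm fun i : Fin n => ex' b i) =
        Finsupp.equivFunOnFinite.symm fun i : Fin n => ex a i + ex' b i := by
      ext i
      rfl
    rw [h3]

theorem C_mul_fam (n N : ℕ) (c : F) (ex : ℕ → ℕ → ℕ) (co : ℕ → F) :
    C c * fam n N ex co = fam n N ex (fun u => c * co u) := by
  unfold fam
  rw [Finset.mul_sum]
  refine Finset.sum_congr rfl fun u _ => ?_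
  rw [C_mul_monomial]

theorem fam_congr (n N : ℕ) {ex ex' : ℕ → ℕ → ℕ} {co co' : ℕ → F}
    (h : ∀ u, u < N → ∀ i, i < n → ex u i = ex' u i) (h' : ∀ u, u < N → co u = co' u) :
    fam n N ex co = fam n N ex' co' := by
  unfold fam
  refine Finset.sum_congr rfl fun u hu => ?_
  have hu' := Finset.mem_range.mp hu
  have h1 : (fun i : Fin n => ex u i) = fun i : Fin n => ex' u i :=
    funext fun i => h u hu' i i.2
  rw [h1, h' u hu']

end Pool.Agent.SIRM
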