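import Pool.Agent.SIRM.Read
import Pool.Agent.SIRM.FamS

/-!
# Membership in the irreducibility problem
-/

set_option autoImplicit false

namespace Pool.Agent.SIRM

open MvPolynomial

variable {F : Type} [Field F]

/-- the degree bound by counting -/
def Bd (c : ℕ) (x : List (Option (F ⊕ Bool))) : Prop :=
  ∃ d, d < x.length + 1 ∧ (∀ u, u < tT x → ∀ i, i < nn x → ee x u i ≤ d) ∧
    Nat.log 2 (tT x) * Nat.log 2 d ≤ c * Nat.log 2 x.length

private theorem Mem_pos {n : ℕ} {f : MvPolynomial (Fin n) F} (h : Irreducible f) : 0 < n := by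
  rcases Nat.eq_zero_or_pos n with rfl | hn
  · exfalso
    have h1 : f = C (coeff 0 f) := eq_C_of_isEmpty f
    have h2 : coeff 0 f ≠ 0 := by
      intro h3
      rw [h3, C_0] at h1
      exact h.ne_zero h1
    rw [h1] at h
    exact h.not_isUnit ((IsUnit.mk0 _ h2).map C)
  · exact hn

private theorem Mem_ee {x : List (Option (F ⊕ Bool))} (h : Good x) {u : ℕ} (hu : u < tT x)
    {i : ℕ} (hi : i < nn x) : ee x u i ≤ x.length :=
  (Finset.single_le_sum (f := fun i => ee x u i) (fun _ _ => Nat.zero_le _)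
    (Finset.mem_range.2 hi)).trans ((good_sizes x h).2.2 u hu)

/-- `good_code`, `of_code`, `support_fam`, `degree_fam`. A polynomial in no variables is a constant,
not irreducible. -/
theorem mem_Irr (c : ℕ) (x : List (Option (F ⊕ Bool))) :
    x ∈ Irr F c ↔ Good x ∧ Bd c x ∧ Irreducible (pol x) := by
  constructor
  · rintro ⟨n, f, d, hc, hd, hl, hi⟩
    obtain ⟨hG, rfl, rfl⟩ := of_code x n (Mem_pos hi) f hi.ne_zero hc
    refine ⟨hG, ⟨min d x.length, ?_, ?_, ?_⟩, hi⟩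
    · exact Nat.lt_succ_of_le (min_le_right _ _)
    · intro u hu i hn
      exact le_min (((degree_fam _ _ _ _ hG.2.2.2.1 hG.2.2.2.2).1 d).1 hd u hu i hn)
        (Mem_ee hG hu hn)
    · rw [(support_fam _ _ _ _ hG.2.2.2.1 hG.2.2.2.2).1] at hl
      exact (Nat.mul_le_mul_left _ (Nat.log_mono_right (min_le_left _ _))).trans hl
  · rintro ⟨hG, ⟨d, _, hd, hl⟩, hi⟩
    refine ⟨nn x, pol x, d, good_code x hG, ?_, ?_, hi⟩
    · exact ((degree_fam _ _ _ _ hG.2.2.2.1 hG.2.2.2.2).1 d).2 hd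
    · have h1 : (pol x).support.card = tT x :=
        (support_fam _ _ _ _ hG.2.2.2.1 hG.2.2.2.2).1
      rw [h1]
      exact hl

/-- The codes, possibly padded, of the irreducible polynomials of degree at most `t` in each
variable. -/
def IrrB (F : Type) [Field F] (t : ℕ) : Set (List (Option (F ⊕ Bool))) :=
  {x | ∃ (n : ℕ) (f : MvPolynomial (Fin n) F), IsCode x f ∧ (∀ i, f.degreeOf i ≤ t) ∧
    Irreducible f}

/-- As `mem_Irr`. -/
theorem mem_IrrB (t : ℕ) (x : List (Option (F ⊕ Bool))) :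
    x ∈ IrrB F t ↔ Good x ∧ (∀ u, u < tT x → ∀ i, i < nn x → ee x u i ≤ t) ∧
      Irreducible (pol x) := by
  constructor
  · rintro ⟨n, f, hc, hd, hi⟩
    obtain ⟨hG, rfl, rfl⟩ := of_code x n (Mem_pos hi) f hi.ne_zero hc
    exact ⟨hG, ((degree_fam _ _ _ _ hG.2.2.2.1 hG.2.2.2.2).1 t).1 hd, hi⟩
  · rintro ⟨hG, hd, hi⟩
    exact ⟨nn x, pol x, good_code x hG,
      ((degree_fam _ _ _ _ hG.2.2.2.1 hG.2.2.2.2).1 t).2 hd, hi⟩

end Pool.Agent.SIRM
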