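import Pool.Agent.SIRM.Core
import Pool.Agent.SIRM.Bound
import Pool.Agent.SIRM.Mem

/-!
# Irreducibility of sparse polynomials in coNP
-/

set_option autoImplicit false

namespace Pool.Agent.SIRM

open Pool.Agent.PT Pool.Agent.Book19 MvPolynomial

variable {F : Type} [Field F] [Fintype F]

private theorem lt_pow_of_le (p d e : ℕ) (hp : 2 ≤ p) (h : e ≤ d) :
    e < p ^ (Nat.log 2 d + 1) :=
  h.trans_lt ((Nat.lt_pow_succ_log_self (by norm_num) d).trans_le (Nat.pow_le_pow_left hp _))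

theorem up_Bd (c : ℕ) : UP2 fun (x : List (Option (F ⊕ Bool))) _ _ => Bd c x := by
  have h1 : UP2 fun (x : List (Option (F ⊕ Bool))) _ e =>
      (∀ u, u < tT x → ∀ i, i < nn x → ee x u i ≤ e 0) ∧
        Nat.log 2 (tT x) * Nat.log 2 (e 0) ≤ c * Nat.log 2 x.length := by
    refine UP2.and ?_ ?_
    · refine UP2.ball (P := fun x _ e u => ∀ i, i < nn x → ee x u i ≤ e 0) uf_tT ?_
      refine UP2.ball (P := fun x _ e i => ee x (e 0) i ≤ e 1) uf_nn ?_
      exact UP2.le (UF2.comp₂ uf_ee (UF2.var 1) (UF2.var 0)) (UF2.var 2)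
    · exact UP2.le (UF2.mul (UF2.log uf_tT) (UF2.log (UF2.var 0)))
        (UF2.mul (UF2.const c) (UF2.log UF2.len))
  exact UP2.bex (P := fun x _ _ d => (∀ u, u < tT x → ∀ i, i < nn x → ee x u i ≤ d) ∧
    Nat.log 2 (tT x) * Nat.log 2 d ≤ c * Nat.log 2 x.length) (UF2.add UF2.len (UF2.const 1)) h1

theorem up_Bt (t : ℕ) : UP2 fun (x : List (Option (F ⊕ Bool))) _ _ =>
    ∀ u, u < tT x → ∀ i, i < nn x → ee x u i ≤ t := by
  refine UP2.ball (P := fun x _ _ u => ∀ i, i < nn x → ee x u i ≤ t) uf_tT ?_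
  refine UP2.ball (P := fun x _ e i => ee x (e 0) i ≤ t) uf_nn ?_
  exact UP2.le (UF2.comp₂ uf_ee (UF2.var 1) (UF2.var 0)) (UF2.const t)

theorem main (c : ℕ) : InNP (Irr F c)ᶜ := by
  obtain ⟨p, hp⟩ := CharP.exists F
  have hpp : p.Prime :=
    (CharP.char_is_prime_or_zero F p).resolve_right (CharP.char_ne_zero_of_finite F p)
  have : Fact p.Prime := ⟨hpp⟩
  have h1 := core (F := F) p (Bd c) (up_Bd c)
    (Polynomial.C (2 ^ (3 * (p - 1))) * (Polynomial.X + 1) ^ (3 * (p - 1) * (c + 2))) ?_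
  · refine (congrArg InNP ?_).mp h1
    ext x
    exact not_congr (mem_Irr c x).symm
  · rintro x hx ⟨d, hd, hd1, hd2⟩
    obtain ⟨g1, g2, g3⟩ := good_sizes x hx
    refine ⟨Nat.log 2 d + 1, fun u hu i hi => lt_pow_of_le p d _ hpp.two_le (hd1 u hu i hi), ?_⟩
    have hN : 0 < x.length := hx.1.trans_le g1
    have h2 := pow_bound (3 * (p - 1)) c (tT x) d x.length g1 (by omega) hN hd2
    rw [← mul_assoc]
    simpa using h2

theorem mainB (t : ℕ) : InNP (IrrB F t)ᶜ := by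
  obtain ⟨p, hp⟩ := CharP.exists F
  have hpp : p.Prime :=
    (CharP.char_is_prime_or_zero F p).resolve_right (CharP.char_ne_zero_of_finite F p)
  have : Fact p.Prime := ⟨hpp⟩
  have h1 := core (F := F) p _ (up_Bt t)
    ((Polynomial.X + 1) ^ (3 * ((p - 1) * (Nat.log 2 t + 1)))) ?_
  · refine (congrArg InNP ?_).mp h1
    ext x
    exact not_congr (mem_IrrB t x).symm
  · intro x hx hd1
    obtain ⟨g1, g2, g3⟩ := good_sizes x hx
    refine ⟨Nat.log 2 t + 1, fun u hu i hi => lt_pow_of_le p t _ hpp.two_le (hd1 u hu i hi), ?_⟩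
    simp only [Polynomial.eval_pow, Polynomial.eval_add, Polynomial.eval_X, Polynomial.eval_one]
    exact Nat.pow_le_pow_left (by omega) _

end Pool.Agent.SIRM
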