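import Pool.Agent.SIRM.UV
import Pool.Agent.SIRM.Defs

/-!
# Reading a code by counting

The recursive functions which read a code, and their descriptions by counting.
-/

set_option autoImplicit false

namespace Pool.Agent.SIRM

open Pool.Agent.PT Pool.Agent.Book19

variable {F : Type}

/-- is the letter a coefficient -/
def isCo : Option (F ⊕ Bool) → Bool
  | some (Sum.inl _) => true
  | _ => false

/-- is the letter the separator -/
def isSep : Option (F ⊕ Bool) → Bool
  | some (Sum.inr false) => true
  | _ => false

/-- the coefficients of a word -/
def coefs (x : List (Option (F ⊕ Bool))) : List F :=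
  x.filterMap fun a => match a with
    | some (Sum.inl b) => some b
    | _ => none

/-- the number of unary marks after exactly `k` separators -/
def ones : List (Option (F ⊕ Bool)) → ℕ → ℕ
  | [], _ => 0
  | some (Sum.inr true) :: x, 0 => ones x 0 + 1
  | some (Sum.inr true) :: x, k + 1 => ones x (k + 1)
  | some (Sum.inr false) :: _, 0 => 0
  | some (Sum.inr false) :: x, k + 1 => ones x k
  | some (Sum.inl _) :: x, k => ones x k
  | none :: x, k => ones x k

/-- the word `x` is a tail of a code in `n` variables, `r` separators of the current term still to
come -/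
def chk (n : ℕ) : ℕ → List (Option (F ⊕ Bool)) → Prop
  | r, [] => r = 0
  | r, some (Sum.inl _) :: x => r = 0 ∧ chk n n x
  | r, some (Sum.inr true) :: x => 0 < r ∧ chk n r x
  | r, some (Sum.inr false) :: x => 0 < r ∧ chk n (r - 1) x
  | r, none :: x => r = 0 ∧ ∀ y ∈ x, y = none

end Pool.Agent.SIRM
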