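import Pool.Agent.SIRM.Par

/-! # The reading functions on codes -/

set_option autoImplicit false

namespace Pool.Agent.SIRM

variable {F : Type}

/-- the word of the blocks of exponents -/
def blk (l : List ℕ) : List (Option (F ⊕ Bool)) :=
  (l.map fun k => List.replicate k (some (Sum.inr true)) ++ [some (Sum.inr false)]).flatten

/-- the padded code -/
def cw {n : ℕ} (ts : List ((Fin n → ℕ) × F)) (m : ℕ) : List (Option (F ⊕ Bool)) :=
  (encTerms ts).map some ++ List.replicate m none

theorem cw_nil {n : ℕ} (m : ℕ) : cw ([] : List ((Fin n → ℕ) × F)) m = List.replicate m none := by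
  simp [cw, encTerms]

/-- unfold `encTerms`, `encTerm`; `List.map_flatten`, `List.map_ofFn`. -/
theorem cw_cons {n : ℕ} (t : (Fin n → ℕ) × F) (ts : List ((Fin n → ℕ) × F)) (m : ℕ) :
    cw (t :: ts) m = some (Sum.inl t.2) :: (blk (List.ofFn t.1) ++ cw ts m) := by
  simp [cw, encTerms, encTerm, blk, List.map_flatten, List.map_ofFn, Function.comp_def]

private theorem blk_nil : blk (F := F) [] = [] := rfl

private theorem blk_cons (k : ℕ) (l : List ℕ) : blk (F := F) (k :: l) =
    List.replicate k (some (Sum.inr true)) ++ some (Sum.inr false) :: blk l := by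
  simp [blk]

private theorem blk_succ (k : ℕ) (l : List ℕ) : blk (F := F) ((k + 1) :: l) =
    some (Sum.inr true) :: blk (k :: l) := by
  rw [blk_cons, blk_cons, List.replicate_succ, List.cons_append]

/-- Induction on `x` generalising `r` (the letters before the first separator are counted in the
first block). -/
theorem exists_of_chk (n : ℕ) : ∀ (x : List (Option (F ⊕ Bool))) (r : ℕ), chk n r x →
    ∃ (l : List ℕ) (ts : List ((Fin n → ℕ) × F)) (m : ℕ), l.length = r ∧ x = blk l ++ cw ts m := by
  intro x
  induction x with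
  | nil =>
    intro r h
    have h0 : r = 0 := h
    exact ⟨[], [], 0, h0.symm, by rw [cw_nil]; rfl⟩
  | cons a x ih =>
    intro r h
    rcases a with _ | a | b
    · have h0 : r = 0 ∧ ∀ y ∈ x, y = none := h
      refine ⟨[], [], x.length + 1, h0.1.symm, ?_⟩
      rw [cw_nil, List.replicate_succ, blk_nil, List.nil_append]
      congr 1
      exact List.eq_replicate_iff.mpr ⟨rfl, h0.2⟩
    · have h0 : r = 0 ∧ chk n n x := h
      obtain ⟨l, ts, m, hl, hx⟩ := ih n h0.2
      subst hl
      refine ⟨[], (fun i => l.get i, a) :: ts, m, h0.1.symm, ?_⟩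
      rw [cw_cons, blk_nil, List.nil_append, hx]
      simp only [List.ofFn_get]
    · cases b with
      | true =>
        have h0 : 0 < r ∧ chk n r x := h
        obtain ⟨l, ts, m, hl, hx⟩ := ih r h0.2
        cases l with
        | nil =>
          exfalso
          have : (0 : ℕ) = r := hl
          omega
        | cons k l =>
          exact ⟨(k + 1) :: l, ts, m, hl, by rw [blk_succ, hx]; rfl⟩
      | false =>
        have h0 : 0 < r ∧ chk n (r - 1) x := h
        obtain ⟨l, ts, m, hl, hx⟩ := ih (r - 1) h0.2
        refine ⟨0 :: l, ts, m, ?_, ?_⟩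
        · rw [List.length_cons, hl]
          omega
        · rw [blk_cons, hx]
          rfl

private theorem chk_blk (n : ℕ) (w : List (Option (F ⊕ Bool))) (hw : chk n 0 w) :
    ∀ l : List ℕ, chk n l.length (blk l ++ w) := by
  intro l
  induction l with
  | nil => exact hw
  | cons k l ih =>
    rw [blk_cons, List.length_cons]
    induction k with
    | zero =>
      show 0 < l.length + 1 ∧ chk n (l.length + 1 - 1) (blk l ++ w)
      exact ⟨Nat.succ_pos _, by rwa [Nat.add_sub_cancel]⟩
    | succ k ihk =>
      rw [List.replicate_succ]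
      exact ⟨Nat.succ_pos _, ihk⟩

/-- Induction on `l`, `ts`. -/
theorem chk_of_code (n : ℕ) (l : List ℕ) (ts : List ((Fin n → ℕ) × F)) (m : ℕ) :
    chk n l.length (blk l ++ cw ts m) := by
  refine chk_blk n _ ?_ l
  induction ts with
  | nil =>
    rw [cw_nil]
    cases m with
    | zero => exact rfl
    | succ m =>
      rw [List.replicate_succ]
      exact ⟨rfl, fun y hy => List.eq_of_mem_replicate hy⟩
  | cons t ts ih =>
    rw [cw_cons]
    refine ⟨rfl, ?_⟩
    have h := chk_blk n _ ih (List.ofFn t.1)
    rwa [List.length_ofFn] at h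

end Pool.Agent.SIRM
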