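import Pool.Agent.SIRM.Par

/-! # `ones` and `coefs` by counting -/

set_option autoImplicit false

namespace Pool.Agent.SIRM

open Pool.Agent.PT Pool.Agent.Book19

variable {F : Type}

/-- Induction on `x` (generalising `k`): split off the first term of the sum (`Finset.sum_range_succ'`);
for `q + 1` the letter of `a :: x` is the letter `q` of `x` and the prefix count is
`(if isSep a then 1 else 0) + (x.take q).countP isSep` (`List.take_succ_cons`, `List.countP_cons`). -/
theorem ones_eq (x : List (Option (F ⊕ Bool))) (k : ℕ) [DecidableEq F] : ones x k =
    ∑ q ∈ Finset.range x.length,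
      if x[q]? = some (some (Sum.inr true)) ∧ (x.take q).countP isSep = k then 1 else 0 := by
  induction x generalizing k with
  | nil => rfl
  | cons b x ih =>
    rw [List.length_cons, Finset.sum_range_succ']
    have h1 : ∀ q, (b :: x)[q + 1]? = x[q]? := fun q => List.getElem?_cons_succ
    have h2 : ∀ q, ((b :: x).take (q + 1)).countP isSep =
        (x.take q).countP isSep + if isSep b then 1 else 0 := fun q => by
      rw [List.take_succ_cons, List.countP_cons]
    simp only [h1, h2, List.getElem?_cons_zero, List.take_zero, List.countP_nil]
    rcases b with _ | _ | _ | _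
    · -- a padding letter
      have h3 : isSep (none : Option (F ⊕ Bool)) = false := rfl
      simp only [h3, Bool.false_eq_true, if_false, add_zero]
      rw [if_neg (by simp), add_zero]
      exact ih k
    · -- a coefficient
      rename_i c
      have h3 : isSep (some (Sum.inl c) : Option (F ⊕ Bool)) = false := rfl
      simp only [h3, Bool.false_eq_true, if_false, add_zero]
      rw [if_neg (by simp), add_zero]
      exact ih k
    · -- the separator
      have h3 : isSep (some (Sum.inr false) : Option (F ⊕ Bool)) = true := rfl
      simp only [h3, if_true]
      rw [if_neg (by simp), add_zero]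
      rcases k with _ | k
      · symm
        refine Finset.sum_eq_zero fun q _ => ?_
        rw [if_neg]
        rintro ⟨_, h⟩
        omega
      · change ones x k = _
        rw [ih k]
        refine Finset.sum_congr rfl fun q _ => ?_
        simp only [Nat.add_right_cancel_iff]
    · -- the unary mark
      have h3 : isSep (some (Sum.inr true) : Option (F ⊕ Bool)) = false := rfl
      simp only [h3, Bool.false_eq_true, if_false, add_zero]
      rcases k with _ | k
      · change ones x 0 + 1 = _
        rw [if_pos (by simp), ih 0]
      · change ones x (k + 1) = _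
        rw [if_neg (by rintro ⟨_, h⟩; omega), add_zero, ih (k + 1)]

/-- Induction on `x` (generalising `j`). -/
theorem coefs_getElem (x : List (Option (F ⊕ Bool))) (j : ℕ) (a : F) : (coefs x)[j]? = some a ↔
    ∃ q, q < x.length ∧ x[q]? = some (some (Sum.inl a)) ∧ (x.take q).countP isCo = j := by
  induction x generalizing j with
  | nil =>
    constructor
    · intro h
      simp [coefs] at h
    · rintro ⟨q, h, _⟩
      exact absurd h (Nat.not_lt_zero _)
  | cons b x ih =>
    have h1 : ∀ q, (b :: x)[q + 1]? = x[q]? := fun q => List.getElem?_cons_succ
    have h2 : ∀ q, ((b :: x).take (q + 1)).countP isCo =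
        (x.take q).countP isCo + if isCo b then 1 else 0 := fun q => by
      rw [List.take_succ_cons, List.countP_cons]
    have h4 : (∃ q, q < (b :: x).length ∧ (b :: x)[q]? = some (some (Sum.inl a)) ∧
        ((b :: x).take q).countP isCo = j) ↔ (b = some (Sum.inl a) ∧ 0 = j) ∨
        ∃ q, q < x.length ∧ x[q]? = some (some (Sum.inl a)) ∧
          (x.take q).countP isCo + (if isCo b then 1 else 0) = j := by
      constructor
      · rintro ⟨q, hq, hb, hc⟩
        rcases q with _ | q
        · left
          rw [List.getElem?_cons_zero] at hb
          exact ⟨Option.some.inj hb, hc⟩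
        · right
          rw [h1] at hb
          rw [h2] at hc
          exact ⟨q, by simpa using hq, hb, hc⟩
      · rintro (⟨hb, hj⟩ | ⟨q, hq, hb, hc⟩)
        · exact ⟨0, by simp, by rw [List.getElem?_cons_zero, hb], hj⟩
        · exact ⟨q + 1, by simpa using hq, by rw [h1]; exact hb, by rw [h2]; exact hc⟩
    rw [h4]
    rcases b with _ | c | c
    · have h3 : isCo (none : Option (F ⊕ Bool)) = false := rfl
      have h5 : coefs (none :: x) = coefs x := rfl
      rw [h5, ih j]
      simp [h3]
    · have h3 : isCo (some (Sum.inl c) : Option (F ⊕ Bool)) = true := rfl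
      have h5 : coefs (some (Sum.inl c) :: x) = c :: coefs x := rfl
      rw [h5]
      rcases j with _ | j
      · rw [List.getElem?_cons_zero]
        simp [h3]
      · rw [List.getElem?_cons_succ, ih j]
        simp [h3]
    · have h3 : isCo (some (Sum.inr c) : Option (F ⊕ Bool)) = false := rfl
      have h5 : coefs (some (Sum.inr c) :: x) = coefs x := rfl
      rw [h5, ih j]
      simp [h3]

end Pool.Agent.SIRM
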