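import Pool.Agent.SIRM.ParOnes

/-! # The reading functions are denoted by terms -/

set_option autoImplicit false

namespace Pool.Agent.SIRM

open Pool.Agent.PT Pool.Agent.Book19

variable {F : Type}

/-- Prefix counts are denoted by terms: `(x.take q).countP p` is the sum over `i < q` of
`if ∃ a, p a = true ∧ x[i]? = some a then 1 else 0` (`Finset.card_filter` or an induction on `q` with
`List.take_succ`); `UP.sym`, `UP.fex`, `UP.const`, `UF.ite`, `UF.sum`. -/
theorem uf_prefix {Γ : Type} [Fintype Γ] (p : Γ → Bool) {f : List Γ → (ℕ → ℕ) → ℕ} (hf : UF f) :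
    UF fun x e => (x.take (f x e)).countP p := by
  classical
  have h1 : UP (fun (x : List Γ) e => At x (e 0) (fun a => p a = true)) := UP.at' _ (UF.var 0)
  refine (UF.sum (b := f) (f := fun x _ i => if At x i (fun a => p a = true) then 1 else 0) hf
    (h1.congr fun x e => Iff.rfl)).congr fun x e => ?_
  clear h1
  generalize f x e = q
  induction q with
  | zero => simp
  | succ q ih =>
    rw [Finset.sum_range_succ, ih, List.take_add_one, List.countP_append]
    congr 1
    cases h : x[q]? with
    | none =>
      rw [if_neg]
      · rfl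
      · rintro ⟨a, h2, _⟩
        rw [h] at h2
        cases h2
    | some a =>
      by_cases h3 : p a = true
      · rw [if_pos ⟨a, h, h3⟩]
        simp [h3]
      · rw [if_neg]
        · simp [h3]
        · rintro ⟨b, h2, h4⟩
          rw [h] at h2
          cases h2
          exact h3 h4

/-- From `ones_eq` and `uf_prefix` (`UF.sum`, `UF.ite`, `UP.and`, `UP.sym`, `UP.eq`, `UF.comp₁`). -/
theorem uf_ones [Fintype F] {f : List (Option (F ⊕ Bool)) → (ℕ → ℕ) → ℕ} (hf : UF f) :
    UF fun x e => ones x (f x e) := by
  classical
  have h1 : UF fun (x : List (Option (F ⊕ Bool))) e => ones x (e 0) := by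
    refine (UF.sum (b := fun x _ => x.length) (f := fun x e q =>
      if x[q]? = some (some (Sum.inr true)) ∧ (x.take q).countP isSep = e 0 then 1 else 0)
      UF.len ?_).congr fun x e => (ones_eq x (e 0)).symm
    exact UF.ite (inst := fun _ _ => _) ((UP.sym (some (Sum.inr true)) (UF.var 0)).and
      (UP.eq (uf_prefix isSep (UF.var 0)) (UF.var 1))) (UF.const 1) (UF.const 0)
  exact UF.comp₁ (f := fun x k => ones x k) h1 hf

/-- From `coefs_getElem` and `uf_prefix`: the value is `a` iff `∃ q < x.length, ...`, or `a = 0` and
for no `b` there is such a `q` (`UP2.ofUP`, `UP.fex` over `b : F`, `UP.bex`). -/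
theorem uv_coefs [Fintype F] [Zero F] : UV fun (x : List (Option (F ⊕ Bool))) _ e =>
    (coefs x).getD (e 0) 0 := by
  classical
  have h1 : ∀ b : F, UP fun (x : List (Option (F ⊕ Bool))) e => (coefs x)[e 0]? = some b := by
    intro b
    refine (UP.bex (b := fun x _ => x.length) (P := fun x e q =>
      x[q]? = some (some (Sum.inl b)) ∧ (x.take q).countP isCo = e 0) UF.len ?_).congr
        fun x e => (coefs_getElem x (e 0) b).symm
    exact (UP.sym (some (Sum.inl b)) (UF.var 0)).and
      (UP.eq (uf_prefix isCo (UF.var 0)) (UF.var 1))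
  intro a
  refine (UP2.ofUP ((h1 a).or ((UP.const (0 = a)).and
    (UP.fall fun b : F => (h1 b).not)))).congr fun x w e => ?_
  show _ ↔ (coefs x).getD (e 0) 0 = a
  rw [List.getD_eq_getElem?_getD]
  cases h : (coefs x)[e 0]? with
  | none => simp
  | some c =>
    constructor
    · rintro (h2 | ⟨_, h2⟩)
      · exact Option.some.inj h2
      · exact absurd rfl (h2 c)
    · intro h2
      left
      rw [← h2]
      rfl

/-- `(coefs x).length = x.countP isCo` (induction), `UF.countP`. -/
theorem uf_coefs_length [Fintype F] : UF fun (x : List (Option (F ⊕ Bool))) _ =>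
    (coefs x).length := by
  refine (UF.countP isCo).congr fun x _ => ?_
  induction x with
  | nil => rfl
  | cons b x ih =>
    rw [List.countP_cons, ih]
    rcases b with _ | c | c <;> simp [coefs, isCo]

end Pool.Agent.SIRM
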