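import Pool.Agent.SIRM.Par
import Pool.Agent.SIRM.Fam

/-!
# The polynomial read from a word
-/

set_option autoImplicit false

namespace Pool.Agent.SIRM

open Pool.Agent.PT Pool.Agent.Book19 MvPolynomial

variable {F : Type} [Field F]

/-- number of terms -/
def tT (x : List (Option (F ⊕ Bool))) : ℕ := (coefs x).length

/-- number of variables -/
def nn (x : List (Option (F ⊕ Bool))) : ℕ := x.countP isSep / tT x

/-- exponents -/
def ee (x : List (Option (F ⊕ Bool))) (j i : ℕ) : ℕ := ones x (j * nn x + i)

/-- coefficients -/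
def cc (x : List (Option (F ⊕ Bool))) (j : ℕ) : F := (coefs x).getD j 0

/-- `x` is a code of a nonzero polynomial in at least one variable -/
def Good (x : List (Option (F ⊕ Bool))) : Prop :=
  0 < tT x ∧ 0 < nn x ∧ chk (nn x) 0 x ∧
    (∀ u, u < tT x → ∀ v, v < tT x → u ≠ v → ∃ i, i < nn x ∧ ee x u i ≠ ee x v i) ∧
    ∀ u, u < tT x → cc x u ≠ 0

/-- the polynomial read from `x` -/
noncomputable def pol (x : List (Option (F ⊕ Bool))) : MvPolynomial (Fin (nn x)) F :=
  fam (nn x) (tT x) (ee x) (cc x)

end Pool.Agent.SIRM
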