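import Pool.Agent.PT.Bits
import Pool.Agent.Book19.Letter

/-!
# Functions of a word and a certificate denoted by terms

`UF2 f`: the function `f x w e` of the word `x`, the certificate `w` and the variables `e` is
denoted by a term on the word `pw x w` (`x` followed by `w`). `UP2 P`: the same for a predicate.
The rules are those of `UF` and `UP` (`PT/UF.lean`).
-/

set_option autoImplicit false

namespace Pool.Agent.SIRM

open Turing Computability Pool.Agent.PT Pool.Agent.Book19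

variable {Γ : Type}

/-- the word of a pair -/
def pw (x : List Γ) (w : List Bool) : List (Γ ⊕ Bool) := x.map Sum.inl ++ w.map Sum.inr

/-- functions of a pair of words denoted by terms -/
def UF2 (f : List Γ → List Bool → (ℕ → ℕ) → ℕ) : Prop :=
  ∃ F : List (Γ ⊕ Bool) → (ℕ → ℕ) → ℕ, UF F ∧ ∀ x w e, F (pw x w) e = f x w e

/-- predicates of a pair of words denoted by terms -/
def UP2 (P : List Γ → List Bool → (ℕ → ℕ) → Prop) : Prop :=
  ∃ Q : List (Γ ⊕ Bool) → (ℕ → ℕ) → Prop, UP Q ∧ ∀ x w e, Q (pw x w) e ↔ P x w e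

theorem UF2.congr {f g : List Γ → List Bool → (ℕ → ℕ) → ℕ} (hf : UF2 f)
    (h : ∀ x w e, f x w e = g x w e) : UF2 g := by
  obtain ⟨F, hF, h1⟩ := hf
  exact ⟨F, hF, fun x w e => (h1 x w e).trans (h x w e)⟩

theorem UP2.congr {P Q : List Γ → List Bool → (ℕ → ℕ) → Prop} (hP : UP2 P)
    (h : ∀ x w e, P x w e ↔ Q x w e) : UP2 Q := by
  obtain ⟨F, hF, h1⟩ := hP
  exact ⟨F, hF, fun x w e => (h1 x w e).trans (h x w e)⟩

theorem UF2.var (i : ℕ) : UF2 (Γ := Γ) (fun _ _ e => e i) := ⟨_, UF.var i, fun _ _ _ => rfl⟩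

theorem UF2.const (c : ℕ) : UF2 (Γ := Γ) (fun _ _ _ => c) := ⟨_, UF.const c, fun _ _ _ => rfl⟩

theorem UF2.add {f g : List Γ → List Bool → (ℕ → ℕ) → ℕ} (hf : UF2 f) (hg : UF2 g) :
    UF2 (fun x w e => f x w e + g x w e) := by
  obtain ⟨F, hF, h1⟩ := hf
  obtain ⟨G, hG, h2⟩ := hg
  exact ⟨_, hF.add hG, fun x w e => by rw [h1, h2]⟩

theorem UF2.sub {f g : List Γ → List Bool → (ℕ → ℕ) → ℕ} (hf : UF2 f) (hg : UF2 g) :
    UF2 (fun x w e => f x w e - g x w e) := by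
  obtain ⟨F, hF, h1⟩ := hf
  obtain ⟨G, hG, h2⟩ := hg
  exact ⟨_, hF.sub hG, fun x w e => by rw [h1, h2]⟩

theorem UF2.mul {f g : List Γ → List Bool → (ℕ → ℕ) → ℕ} (hf : UF2 f) (hg : UF2 g) :
    UF2 (fun x w e => f x w e * g x w e) := by
  obtain ⟨F, hF, h1⟩ := hf
  obtain ⟨G, hG, h2⟩ := hg
  exact ⟨_, hF.mul hG, fun x w e => by rw [h1, h2]⟩

theorem UF2.div {f g : List Γ → List Bool → (ℕ → ℕ) → ℕ} (hf : UF2 f) (hg : UF2 g) :
    UF2 (fun x w e => f x w e / g x w e) := by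
  obtain ⟨F, hF, h1⟩ := hf
  obtain ⟨G, hG, h2⟩ := hg
  exact ⟨_, hF.div hG, fun x w e => by rw [h1, h2]⟩

theorem UF2.mod {f g : List Γ → List Bool → (ℕ → ℕ) → ℕ} (hf : UF2 f) (hg : UF2 g) :
    UF2 (fun x w e => f x w e % g x w e) := by
  obtain ⟨F, hF, h1⟩ := hf
  obtain ⟨G, hG, h2⟩ := hg
  exact ⟨_, hF.mod hG, fun x w e => by rw [h1, h2]⟩

theorem UF2.sum {b : List Γ → List Bool → (ℕ → ℕ) → ℕ}
    {f : List Γ → List Bool → (ℕ → ℕ) → ℕ → ℕ} (hb : UF2 b)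
    (hf : UF2 (fun x w e => f x w (fun i => e (i + 1)) (e 0))) :
    UF2 (fun x w e => ∑ i ∈ Finset.range (b x w e), f x w e i) := by
  obtain ⟨B, hB, h1⟩ := hb
  obtain ⟨F, hF, h2⟩ := hf
  refine ⟨_, hB.sum' hF, fun x w e => ?_⟩
  rw [h1]
  refine Finset.sum_congr rfl fun i _ => ?_
  rw [h2]
  rfl

theorem UF2.ren (σ : ℕ → ℕ) {f : List Γ → List Bool → (ℕ → ℕ) → ℕ} (hf : UF2 f) :
    UF2 (fun x w e => f x w (fun i => e (σ i))) := by
  obtain ⟨F, hF, h1⟩ := hf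
  exact ⟨_, hF.ren σ, fun x w e => h1 _ _ _⟩

theorem UP2.ren (σ : ℕ → ℕ) {P : List Γ → List Bool → (ℕ → ℕ) → Prop} (hP : UP2 P) :
    UP2 (fun x w e => P x w (fun i => e (σ i))) := by
  obtain ⟨F, hF, h1⟩ := hP
  exact ⟨fun z e => F z (fun i => e (σ i)), UF.ren σ hF, fun x w e => h1 _ _ _⟩

theorem UF2.subst {f : List Γ → List Bool → (ℕ → ℕ) → ℕ} (hf : UF2 f)
    (G : ℕ → List Γ → List Bool → (ℕ → ℕ) → ℕ) (hG : ∀ i, UF2 (G i)) :
    UF2 (fun x w e => f x w (fun i => G i x w e)) := by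
  obtain ⟨F, hF, h1⟩ := hf
  choose H hH h2 using hG
  refine ⟨_, hF.subst H hH, fun x w e => ?_⟩
  rw [h1]
  congr 1
  funext i
  exact h2 i x w e

theorem UP2.subst {P : List Γ → List Bool → (ℕ → ℕ) → Prop} (hP : UP2 P)
    (G : ℕ → List Γ → List Bool → (ℕ → ℕ) → ℕ) (hG : ∀ i, UF2 (G i)) :
    UP2 (fun x w e => P x w (fun i => G i x w e)) := by
  classical
  obtain ⟨F, hF, h1⟩ := hP
  choose H hH h2 using hG
  refine ⟨fun z e => F z (fun i => H i z e), UF.subst hF H hH, fun x w e => ?_⟩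
  have : (fun i => H i (pw x w) e) = fun i => G i x w e := funext fun i => h2 i x w e
  simp only [this]
  exact h1 _ _ _

/-- Functions of two variables. -/
theorem UF2.comp₁ {f : List Γ → List Bool → ℕ → ℕ} (hf : UF2 (fun x w e => f x w (e 0)))
    {g : List Γ → List Bool → (ℕ → ℕ) → ℕ} (hg : UF2 g) : UF2 (fun x w e => f x w (g x w e)) :=
  hf.subst (fun _ => g) (fun _ => hg)

theorem UF2.comp₂ {f : List Γ → List Bool → ℕ → ℕ → ℕ}
    (hf : UF2 (fun x w e => f x w (e 0) (e 1)))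
    {g h : List Γ → List Bool → (ℕ → ℕ) → ℕ} (hg : UF2 g) (hh : UF2 h) :
    UF2 (fun x w e => f x w (g x w e) (h x w e)) :=
  hf.subst (fun i => Nat.casesOn i g (fun _ => h)) (fun i => by cases i; exacts [hg, hh])

theorem UP2.comp₁ {P : List Γ → List Bool → ℕ → Prop} (hP : UP2 (fun x w e => P x w (e 0)))
    {g : List Γ → List Bool → (ℕ → ℕ) → ℕ} (hg : UF2 g) : UP2 (fun x w e => P x w (g x w e)) :=
  hP.subst (fun _ => g) (fun _ => hg)

theorem UP2.comp₂ {P : List Γ → List Bool → ℕ → ℕ → Prop}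
    (hP : UP2 (fun x w e => P x w (e 0) (e 1)))
    {g h : List Γ → List Bool → (ℕ → ℕ) → ℕ} (hg : UF2 g) (hh : UF2 h) :
    UP2 (fun x w e => P x w (g x w e) (h x w e)) :=
  hP.subst (fun i => Nat.casesOn i g (fun _ => h)) (fun i => by cases i; exacts [hg, hh])

theorem UP2.not {P : List Γ → List Bool → (ℕ → ℕ) → Prop} (hP : UP2 P) :
    UP2 (fun x w e => ¬ P x w e) := by
  obtain ⟨F, hF, h1⟩ := hP
  exact ⟨_, hF.not, fun x w e => by rw [h1]⟩

theorem UP2.and {P Q : List Γ → List Bool → (ℕ → ℕ) → Prop} (hP : UP2 P) (hQ : UP2 Q) :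
    UP2 (fun x w e => P x w e ∧ Q x w e) := by
  obtain ⟨F, hF, h1⟩ := hP
  obtain ⟨G, hG, h2⟩ := hQ
  exact ⟨_, hF.and hG, fun x w e => by rw [h1, h2]⟩

theorem UP2.or {P Q : List Γ → List Bool → (ℕ → ℕ) → Prop} (hP : UP2 P) (hQ : UP2 Q) :
    UP2 (fun x w e => P x w e ∨ Q x w e) := by
  obtain ⟨F, hF, h1⟩ := hP
  obtain ⟨G, hG, h2⟩ := hQ
  exact ⟨_, hF.or hG, fun x w e => by rw [h1, h2]⟩

theorem UP2.imp {P Q : List Γ → List Bool → (ℕ → ℕ) → Prop} (hP : UP2 P) (hQ : UP2 Q) :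
    UP2 (fun x w e => P x w e → Q x w e) := by
  obtain ⟨F, hF, h1⟩ := hP
  obtain ⟨G, hG, h2⟩ := hQ
  exact ⟨_, hF.imp hG, fun x w e => by rw [h1, h2]⟩

theorem UP2.const (p : Prop) : UP2 (Γ := Γ) (fun _ _ _ => p) :=
  ⟨_, UP.const p, fun _ _ _ => Iff.rfl⟩

theorem UP2.le {f g : List Γ → List Bool → (ℕ → ℕ) → ℕ} (hf : UF2 f) (hg : UF2 g) :
    UP2 (fun x w e => f x w e ≤ g x w e) := by
  obtain ⟨F, hF, h1⟩ := hf
  obtain ⟨G, hG, h2⟩ := hg
  exact ⟨_, UP.le hF hG, fun x w e => by rw [h1, h2]⟩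

theorem UP2.lt {f g : List Γ → List Bool → (ℕ → ℕ) → ℕ} (hf : UF2 f) (hg : UF2 g) :
    UP2 (fun x w e => f x w e < g x w e) := by
  obtain ⟨F, hF, h1⟩ := hf
  obtain ⟨G, hG, h2⟩ := hg
  exact ⟨_, UP.lt hF hG, fun x w e => by rw [h1, h2]⟩

theorem UP2.eq {f g : List Γ → List Bool → (ℕ → ℕ) → ℕ} (hf : UF2 f) (hg : UF2 g) :
    UP2 (fun x w e => f x w e = g x w e) := by
  obtain ⟨F, hF, h1⟩ := hf
  obtain ⟨G, hG, h2⟩ := hg
  exact ⟨_, UP.eq hF hG, fun x w e => by rw [h1, h2]⟩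

theorem UF2.ite {P : List Γ → List Bool → (ℕ → ℕ) → Prop}
    {f g : List Γ → List Bool → (ℕ → ℕ) → ℕ} {inst : ∀ x w e, Decidable (P x w e)}
    (hP : UP2 P) (hf : UF2 f) (hg : UF2 g) :
    UF2 (fun x w e => @_root_.ite ℕ (P x w e) (inst x w e) (f x w e) (g x w e)) := by
  classical
  obtain ⟨Q, hQ, h0⟩ := hP
  obtain ⟨F, hF, h1⟩ := hf
  obtain ⟨G, hG, h2⟩ := hg
  refine ⟨_, UF.ite (inst := fun z e => Classical.propDecidable (Q z e)) hQ hF hG,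
    fun x w e => ?_⟩
  simp only [h1, h2]
  by_cases h : P x w e
  · rw [if_pos h, if_pos ((h0 x w e).2 h)]
  · rw [if_neg h, if_neg (fun h' => h ((h0 x w e).1 h'))]

theorem UP2.bex {b : List Γ → List Bool → (ℕ → ℕ) → ℕ}
    {P : List Γ → List Bool → (ℕ → ℕ) → ℕ → Prop} (hb : UF2 b)
    (hP : UP2 (fun x w e => P x w (fun i => e (i + 1)) (e 0))) :
    UP2 (fun x w e => ∃ i, i < b x w e ∧ P x w e i) := by
  obtain ⟨B, hB, h1⟩ := hb
  obtain ⟨Q, hQ, h2⟩ := hP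
  refine ⟨fun z e => ∃ i, i < B z e ∧ Q z (Pool.Agent.PT.cons i e), UP.bex (P := fun z e i =>
    Q z (Pool.Agent.PT.cons i e)) hB (UP.congr hQ fun z e => ?_), fun x w e => ?_⟩
  · have : (Pool.Agent.PT.cons (e 0) fun i => e (i + 1)) = e := by
      funext j
      cases j <;> rfl
    rw [this]
  · simp only [h1]
    exact exists_congr fun i => and_congr_right fun _ => h2 _ _ _

theorem UP2.ball {b : List Γ → List Bool → (ℕ → ℕ) → ℕ}
    {P : List Γ → List Bool → (ℕ → ℕ) → ℕ → Prop} (hb : UF2 b)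
    (hP : UP2 (fun x w e => P x w (fun i => e (i + 1)) (e 0))) :
    UP2 (fun x w e => ∀ i, i < b x w e → P x w e i) := by
  refine (UP2.bex (P := fun x w e i => ¬ P x w e i) hb hP.not).not.congr fun x w e => ?_
  push Not
  rfl

theorem UP2.fex {ι : Type} [Fintype ι] {P : ι → List Γ → List Bool → (ℕ → ℕ) → Prop}
    (h : ∀ i, UP2 (P i)) : UP2 (fun x w e => ∃ i, P i x w e) := by
  choose Q hQ h2 using h
  exact ⟨fun z e => ∃ i, Q i z e, UP.fex hQ, fun x w e => exists_congr fun i => h2 i x w e⟩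

theorem UP2.fall {ι : Type} [Fintype ι] {P : ι → List Γ → List Bool → (ℕ → ℕ) → Prop}
    (h : ∀ i, UP2 (P i)) : UP2 (fun x w e => ∀ i, P i x w e) := by
  choose Q hQ h2 using h
  exact ⟨fun z e => ∀ i, Q i z e, UP.fall hQ, fun x w e => forall_congr' fun i => h2 i x w e⟩

theorem UF2.poly (P : Polynomial ℕ) {f : List Γ → List Bool → (ℕ → ℕ) → ℕ} (hf : UF2 f) :
    UF2 (fun x w e => P.eval (f x w e)) := by
  obtain ⟨F, hF, h1⟩ := hf
  exact ⟨_, hF.poly P, fun x w e => by rw [h1]⟩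

end Pool.Agent.SIRM
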