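import Pool.Agent.SIRM.Base

/-!
# Functions with values in a finite field denoted by terms
-/

set_option autoImplicit false

namespace Pool.Agent.SIRM

open Pool.Agent.PT Pool.Agent.Book19

variable {Γ F : Type}

/-- functions with values in a finite type denoted by terms -/
def UV (f : List Γ → List Bool → (ℕ → ℕ) → F) : Prop := ∀ a : F, UP2 (fun x w e => f x w e = a)

theorem UV.congr {f g : List Γ → List Bool → (ℕ → ℕ) → F} (hf : UV f)
    (h : ∀ x w e, f x w e = g x w e) : UV g := fun a => (hf a).congr fun x w e => by rw [h]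

theorem UV.const (a : F) : UV (Γ := Γ) (fun _ _ _ => a) := fun b => UP2.const (a = b)

theorem UV.subst {f : List Γ → List Bool → (ℕ → ℕ) → F} (hf : UV f)
    (G : ℕ → List Γ → List Bool → (ℕ → ℕ) → ℕ) (hG : ∀ i, UF2 (G i)) :
    UV (fun x w e => f x w (fun i => G i x w e)) := fun a => (hf a).subst G hG

theorem UV.comp₁ {f : List Γ → List Bool → ℕ → F} (hf : UV (fun x w e => f x w (e 0)))
    {g : List Γ → List Bool → (ℕ → ℕ) → ℕ} (hg : UF2 g) : UV (fun x w e => f x w (g x w e)) :=
  fun a => (hf a).comp₁ (P := fun x w k => f x w k = a) hg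

theorem UV.map [Fintype F] {G : Type} (φ : F → G) {f : List Γ → List Bool → (ℕ → ℕ) → F}
    (hf : UV f) : UV (fun x w e => φ (f x w e)) := fun a =>
  (UP2.fex fun b => (hf b).and (UP2.const (φ b = a))).congr fun x w e => by
    constructor
    · rintro ⟨b, rfl, h⟩
      exact h
    · exact fun h => ⟨_, rfl, h⟩

theorem UV.map₂ [Fintype F] {G H : Type} [Fintype G] (φ : F → G → H)
    {f : List Γ → List Bool → (ℕ → ℕ) → F} {g : List Γ → List Bool → (ℕ → ℕ) → G}
    (hf : UV f) (hg : UV g) : UV (fun x w e => φ (f x w e) (g x w e)) := fun a =>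
  (UP2.fex fun b => UP2.fex fun c => ((hf b).and (hg c)).and (UP2.const (φ b c = a))).congr
    fun x w e => by
    constructor
    · rintro ⟨b, c, ⟨rfl, rfl⟩, h⟩
      exact h
    · exact fun h => ⟨_, _, ⟨rfl, rfl⟩, h⟩

theorem UP2.eqV [Fintype F] {f g : List Γ → List Bool → (ℕ → ℕ) → F} (hf : UV f) (hg : UV g) :
    UP2 (fun x w e => f x w e = g x w e) :=
  (UP2.fex fun b => (hf b).and (hg b)).congr fun x w e => by
    constructor
    · rintro ⟨b, h, h'⟩
      exact h.trans h'.symm
    · exact fun h => ⟨_, h, rfl⟩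

theorem UV.ite {P : List Γ → List Bool → (ℕ → ℕ) → Prop}
    {f g : List Γ → List Bool → (ℕ → ℕ) → F} {inst : ∀ x w e, Decidable (P x w e)}
    (hP : UP2 P) (hf : UV f) (hg : UV g) :
    UV (fun x w e => @_root_.ite F (P x w e) (inst x w e) (f x w e) (g x w e)) := fun a =>
  ((hP.and (hf a)).or (hP.not.and (hg a))).congr fun x w e => by
    by_cases h : P x w e <;> simp [h]

/-- finite tables -/
theorem UV.table (T : ℕ → F) (K : ℕ) {f : List Γ → List Bool → (ℕ → ℕ) → ℕ} (hf : UF2 f)
    (hlt : ∀ x w e, f x w e < K) : UV (fun x w e => T (f x w e)) := fun a =>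
  (UP2.fex (ι := Fin K) fun k => (UP2.eq hf (UF2.const k)).and (UP2.const (T k = a))).congr
    fun x w e => by
    constructor
    · rintro ⟨b, h, h'⟩
      simp only [h]
      exact h'
    · exact fun h => ⟨⟨_, hlt x w e⟩, rfl, h⟩

/-- bounded sums -/
theorem UV.sum [Fintype F] [AddCommGroup F] {b : List Γ → List Bool → (ℕ → ℕ) → ℕ}
    {f : List Γ → List Bool → (ℕ → ℕ) → ℕ → F} (hb : UF2 b)
    (hf : UV (fun x w e => f x w (fun i => e (i + 1)) (e 0))) :
    UV (fun x w e => ∑ i ∈ Finset.range (b x w e), f x w e i) := by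
  classical
  intro a
  obtain ⟨q, hq⟩ : ∃ q, q = Fintype.card F := ⟨_, rfl⟩
  have hq0 : 0 < q := by
    rw [hq]
    exact Fintype.card_pos
  have hcount : ∀ c : F, UF2 (fun x w e => ((Finset.range (b x w e)).filter
      fun i => f x w e i = c).card) := by
    intro c
    refine (UF2.sum (f := fun x w e i => if f x w e i = c then 1 else 0) hb
      (UF2.ite (hf c) (UF2.const 1) (UF2.const 0))).congr fun x w e => ?_
    rw [Finset.card_filter]
  refine (UP2.fex (ι := F → Fin q) fun r => (UP2.fall fun c : F =>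
    UP2.eq ((hcount c).mod (UF2.const q)) (UF2.const (r c))).and
      (UP2.const (∑ c, (r c : ℕ) • c = a))).congr fun x w e => ?_
  have hval : ∑ i ∈ Finset.range (b x w e), f x w e i = ∑ c : F,
      (((Finset.range (b x w e)).filter fun i => f x w e i = c).card % q) • c := by
    rw [← Finset.sum_fiberwise (Finset.range (b x w e)) (fun i => f x w e i)
      (fun i => f x w e i)]
    refine Finset.sum_congr rfl fun c _ => ?_
    rw [Finset.sum_congr rfl (g := fun _ => c) (fun i hi => (Finset.mem_filter.mp hi).2),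
      Finset.sum_const]
    have h1 : q • c = 0 := by
      rw [hq]
      exact card_nsmul_eq_zero
    conv_lhs => rw [← Nat.div_add_mod'
      ((Finset.range (b x w e)).filter fun i => f x w e i = c).card q, add_nsmul, mul_nsmul', h1]
    simp
  simp only [hval]
  constructor
  · rintro ⟨r, h1, h2⟩
    rw [← h2]
    exact Finset.sum_congr rfl fun c _ => by rw [h1 c]
  · intro h
    exact ⟨fun c => ⟨_, Nat.mod_lt _ hq0⟩, fun c => rfl, h⟩

end Pool.Agent.SIRM
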